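import Mathlib

set_option autoImplicit false

/-!
A Strassmann type theorem without valuations: if the coefficients of a Mahler type expansion
`u n = ∑ b k * n (n - 1) ⋯ (n - k + 1)` lie deeper and deeper in a separated filtration, then
`u` has finitely many zeros unless all coefficients vanish.
-/

namespace Pool.Agent.MP_e9abfe

open Polynomial

/-- If `u n = ∑ b k * n.descFactorial k` has infinitely many zeros, then each `b N` lies in the
additive group generated by the later coefficients. -/
lemma mem_closure_of_infinite {F : Type*} [Field F] [CharZero F]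
    (b u : ℕ → F)
    (hu : ∀ n, u n = ∑ k ∈ Finset.range (n + 1), b k * (n.descFactorial k : F))
    (hinf : {n | u n = 0}.Infinite) (N : ℕ) :
    b N ∈ AddSubgroup.closure {x | ∃ k, N + 1 ≤ k ∧ x = b k} := by
  obtain ⟨Z, hZsub, hZcard⟩ := hinf.exists_subset_card_eq (N + 1)
  obtain ⟨T, hT⟩ : ∃ T, ∀ n ∈ Z, n < T :=
    ⟨Z.sup id + 1, fun n hn => Nat.lt_succ_of_le (Finset.le_sup (f := id) hn)⟩
  have huT : ∀ n ∈ Z, ∑ k ∈ Finset.range (T + N + 1), b k * (n.descFactorial k : F) = 0 := by
    intro n hn
    have h1 : u n = 0 := hZsub hn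
    rw [hu n] at h1
    rw [← h1]
    symm
    apply Finset.sum_subset
    · intro k hk
      have := hT n hn
      simp only [Finset.mem_range] at hk ⊢
      omega
    · intro k _ hk
      simp only [Finset.mem_range, not_lt] at hk
      rw [Nat.descFactorial_eq_zero_iff_lt.2 (by omega)]
      simp
  set Zp : ℤ[X] := ∏ i ∈ Z, (X - C (i : ℤ)) with hZp
  have hmonic : Zp.Monic := monic_prod_of_monic _ _ (fun i _ => monic_X_sub_C _)
  have hdeg : Zp.natDegree = N + 1 := by
    rw [hZp, natDegree_prod_of_monic _ _ (fun i _ => monic_X_sub_C _)]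
    have h1 : ∀ i ∈ Z, (X - C (i : ℤ) : ℤ[X]).natDegree = 1 := fun i _ => natDegree_X_sub_C _
    rw [Finset.sum_congr rfl h1, Finset.sum_const, hZcard, smul_eq_mul, mul_one]
  let r : ℕ → ℤ[X] := fun k => descPochhammer ℤ k %ₘ Zp
  have hrdeg : ∀ k, (r k).degree < (N + 1 : ℕ) := by
    intro k
    have h1 := degree_modByMonic_lt (descPochhammer ℤ k) hmonic
    rwa [degree_eq_natDegree hmonic.ne_zero, hdeg] at h1
  have hreval : ∀ k, ∀ n ∈ Z, ((r k).eval (n : ℤ)) = (n.descFactorial k : ℤ) := by
    intro k n hn
    have h1 := modByMonic_add_div (descPochhammer ℤ k) Zp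
    have h2 := congrArg (fun P => eval (n : ℤ) P) h1
    simp only [eval_add, eval_mul] at h2
    have h3 : eval (n : ℤ) Zp = 0 := by
      rw [hZp, eval_prod]
      apply Finset.prod_eq_zero hn
      simp
    rw [h3, zero_mul, add_zero] at h2
    rw [show (r k).eval (n : ℤ) = eval (n : ℤ) (descPochhammer ℤ k %ₘ Zp) from rfl, h2]
    exact descPochhammer_eval_eq_descFactorial ℤ n k
  let R : F[X] := ∑ k ∈ Finset.range (T + N + 1), C (b k) * (r k).map (Int.castRingHom F)
  have hRdeg : R.degree < (N + 1 : ℕ) := by
    apply lt_of_le_of_lt (degree_sum_le _ _)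
    rw [Finset.sup_lt_iff (by exact_mod_cast WithBot.bot_lt_coe (N + 1))]
    intro k _
    apply lt_of_le_of_lt (degree_mul_le _ _)
    have h1 : (C (b k)).degree ≤ 0 := degree_C_le
    have h2 : ((r k).map (Int.castRingHom F)).degree ≤ (r k).degree := degree_map_le
    calc (C (b k)).degree + ((r k).map (Int.castRingHom F)).degree
        ≤ 0 + (r k).degree := add_le_add h1 h2
      _ = (r k).degree := zero_add _
      _ < (N + 1 : ℕ) := hrdeg k
  have hReval : ∀ n ∈ Z, R.eval (n : F) = 0 := by
    intro n hn
    rw [← huT n hn]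
    simp only [R, eval_finsetSum, eval_mul, eval_C]
    apply Finset.sum_congr rfl
    intro k _
    congr 1
    rw [show (n : F) = Int.castRingHom F (n : ℤ) by simp, eval_map_apply, hreval k n hn]
    simp
  have hR0 : R = 0 := by
    classical
    by_contra hne
    have h1 : Z.image (fun n : ℕ => (n : F)) ⊆ R.roots.toFinset := by
      intro x hx
      obtain ⟨n, hn, rfl⟩ := Finset.mem_image.1 hx
      rw [Multiset.mem_toFinset, mem_roots hne]
      exact hReval n hn
    have h2 := Finset.card_le_card h1
    rw [Finset.card_image_of_injective _ Nat.cast_injective, hZcard] at h2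
    have h3 := Multiset.toFinset_card_le R.roots
    have h4 := card_roots' R
    have h5 : R.natDegree < N + 1 := by
      rw [degree_eq_natDegree hne] at hRdeg
      exact_mod_cast hRdeg
    omega
  have hcoeff : ∑ k ∈ Finset.range (T + N + 1), b k * ((r k).coeff N : F) = 0 := by
    have := congrArg (fun P => coeff P N) hR0
    simpa [R, finsetSum_coeff] using this
  have hlow : ∀ k < N, (r k).coeff N = 0 := by
    intro k hk
    have h1 : r k = descPochhammer ℤ k := by
      apply (modByMonic_eq_self_iff hmonic).2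
      rw [degree_eq_natDegree hmonic.ne_zero, hdeg,
        degree_eq_natDegree (monic_descPochhammer ℤ k).ne_zero, descPochhammer_natDegree]
      exact_mod_cast (by omega : k < N + 1)
    rw [h1]
    apply coeff_eq_zero_of_natDegree_lt
    rw [descPochhammer_natDegree]
    exact hk
  have hN : (r N).coeff N = 1 := by
    have h1 : r N = descPochhammer ℤ N := by
      apply (modByMonic_eq_self_iff hmonic).2
      rw [degree_eq_natDegree hmonic.ne_zero, hdeg,
        degree_eq_natDegree (monic_descPochhammer ℤ N).ne_zero, descPochhammer_natDegree]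
      exact_mod_cast (by omega : N < N + 1)
    rw [h1]
    have h2 := (monic_descPochhammer ℤ N).coeff_natDegree
    rwa [descPochhammer_natDegree] at h2
  have hNmem : N ∈ Finset.range (T + N + 1) := Finset.mem_range.2 (by omega)
  rw [← Finset.add_sum_erase _ _ hNmem, hN] at hcoeff
  have hbN : b N = - ∑ k ∈ (Finset.range (T + N + 1)).erase N, b k * ((r k).coeff N : F) := by
    have := hcoeff
    simp only [Int.cast_one, mul_one] at this
    exact eq_neg_of_add_eq_zero_left this
  rw [hbN]
  apply neg_mem
  apply sum_mem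
  intro k hk
  rw [Finset.mem_erase] at hk
  rcases lt_or_gt_of_ne hk.1 with h | h
  · rw [hlow k h]
    simp
  · have h1 : b k ∈ AddSubgroup.closure {x | ∃ k, N + 1 ≤ k ∧ x = b k} :=
      AddSubgroup.subset_closure ⟨k, h, rfl⟩
    have h2 : b k * ((r k).coeff N : F) = ((r k).coeff N) • b k := by
      rw [zsmul_eq_mul, mul_comm]
    rw [h2]
    exact zsmul_mem h1 _

/-- **Strassmann's theorem, filtered form.** -/
theorem strassmann {D F : Type*} [CommRing D] [Field F] [CharZero F] [Algebra D F]
    (M : Submodule D F) (π : D)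
    (hsep : ∀ x : F, (∀ k : ℕ, ∃ y ∈ M, x = π ^ k • y) → x = 0)
    (b u : ℕ → F) (hb : ∀ k, ∃ y ∈ M, b k = π ^ k • y)
    (hu : ∀ n, u n = ∑ k ∈ Finset.range (n + 1), b k * (n.descFactorial k : F))
    (hinf : {n | u n = 0}.Infinite) (n : ℕ) : u n = 0 := by
  have hb0 : ∀ N, b N = 0 := by
    -- `b N` lies in the group generated by the coefficients of index `≥ K`, for every `K`
    have key : ∀ K d N, K ≤ N + d → b N ∈ AddSubgroup.closure {x | ∃ k, K ≤ k ∧ x = b k} := by
      intro K d
      induction d with
      | zero => intro N hN; exact AddSubgroup.subset_closure ⟨N, hN, rfl⟩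
      | succ d ih =>
        intro N hN
        have h1 := mem_closure_of_infinite b u hu hinf N
        refine (AddSubgroup.closure_le _).2 ?_ h1
        rintro x ⟨k, hk, rfl⟩
        exact ih k (by omega)
    intro N
    apply hsep
    intro K
    have h1 := key K K N (by omega)
    let P : AddSubgroup F :=
      { carrier := {x | ∃ y ∈ M, x = π ^ K • y}
        zero_mem' := ⟨0, M.zero_mem, by simp⟩
        add_mem' := by
          rintro a c ⟨y, hy, rfl⟩ ⟨z, hz, rfl⟩
          exact ⟨y + z, M.add_mem hy hz, by rw [smul_add]⟩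
        neg_mem' := by
          rintro a ⟨y, hy, rfl⟩
          exact ⟨-y, M.neg_mem hy, by rw [smul_neg]⟩ }
    have h2 : AddSubgroup.closure {x | ∃ k, K ≤ k ∧ x = b k} ≤ P := by
      rw [AddSubgroup.closure_le]
      rintro x ⟨k, hk, rfl⟩
      obtain ⟨y, hy, hxy⟩ := hb k
      refine ⟨π ^ (k - K) • y, M.smul_mem _ hy, ?_⟩
      rw [hxy, smul_smul, ← pow_add]
      congr 2
      omega
    exact h2 h1
  rw [hu n]
  apply Finset.sum_eq_zero
  intro k _
  rw [hb0 k, zero_mul]

end Pool.Agent.MP_e9abfe
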