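import Mathlib
import Pool.Agent.Lib.MP_e9abfe_ag.Strassmann

set_option autoImplicit false

/-!
The map `Φ(x,y,z) = (x²+y, y²+z, z²+x)` over an arbitrary commutative ring, its iterated Jacobian,
and the interpolation of its orbits inside a residue class on which a return map is congruent to
the identity.
-/

namespace Pool.Agent.MP_e9abfe

open MvPolynomial

section basic

variable {R : Type*} [CommRing R]

/-- The map `Φ` over any commutative ring. -/
def Phi (v : Fin 3 → R) : Fin 3 → R := ![v 0 ^ 2 + v 1, v 1 ^ 2 + v 2, v 2 ^ 2 + v 0]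

/-- Its Jacobian matrix. -/
def Jac (v : Fin 3 → R) : Matrix (Fin 3) (Fin 3) R :=
  !![2 * v 0, 1, 0; 0, 2 * v 1, 1; 1, 0, 2 * v 2]

/-- The Jacobian matrix of the iterates. -/
def JacIter : ℕ → (Fin 3 → R) → Matrix (Fin 3) (Fin 3) R
  | 0, _ => 1
  | (n + 1), v => Jac (Phi^[n] v) * JacIter n v

lemma det_Jac (v : Fin 3 → R) : (Jac v).det = 1 + 8 * (v 0 * v 1 * v 2) := by
  simp [Jac, Matrix.det_fin_three]
  ring

lemma JacIter_add (m n : ℕ) (v : Fin 3 → R) :
    JacIter (m + n) v = JacIter m (Phi^[n] v) * JacIter n v := by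
  induction m with
  | zero => simp [JacIter]
  | succ m ih =>
    rw [show m + 1 + n = (m + n) + 1 by omega, JacIter, ih, JacIter, Function.iterate_add_apply,
      Matrix.mul_assoc]

lemma isUnit_JacIter (n : ℕ) (v : Fin 3 → R)
    (h : ∀ j, IsUnit (1 + 8 * (Phi^[j] v 0 * Phi^[j] v 1 * Phi^[j] v 2))) :
    IsUnit (JacIter n v) := by
  induction n with
  | zero => exact isUnit_one
  | succ n ih =>
    rw [JacIter]
    refine IsUnit.mul ?_ ih
    rw [Matrix.isUnit_iff_isUnit_det, det_Jac]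
    exact h n

lemma JacIter_mul_period (M : ℕ) (v : Fin 3 → R) (hv : Phi^[M] v = v) (k : ℕ) :
    JacIter (M * k) v = JacIter M v ^ k := by
  induction k with
  | zero => simp [JacIter]
  | succ k ih =>
    have hk : Phi^[M * k] v = v := by
      rw [Function.iterate_mul]
      exact Function.iterate_fixed hv k
    rw [show M * (k + 1) = M + M * k by ring, JacIter_add, hk, ih, pow_succ']

variable {S : Type*} [CommRing S] (g : R →+* S)

lemma Phi_map (v : Fin 3 → R) : Phi (fun i => g (v i)) = fun i => g (Phi v i) := by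
  funext i
  fin_cases i <;> simp [Phi]

lemma Phi_iter_map (n : ℕ) (v : Fin 3 → R) :
    Phi^[n] (fun i => g (v i)) = fun i => g (Phi^[n] v i) := by
  induction n with
  | zero => rfl
  | succ n ih => rw [Function.iterate_succ_apply', ih, Phi_map, Function.iterate_succ_apply']

lemma Jac_map (v : Fin 3 → R) : Jac (fun i => g (v i)) = (Jac v).map g := by
  have h2 : g 2 = 2 := map_ofNat g 2
  ext i j
  fin_cases i <;> fin_cases j <;> simp [Jac, h2]

lemma JacIter_map (n : ℕ) (v : Fin 3 → R) :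
    JacIter n (fun i => g (v i)) = (JacIter n v).map g := by
  induction n with
  | zero => simp [JacIter]
  | succ n ih => rw [JacIter, ih, Phi_iter_map, Jac_map, JacIter, Matrix.map_mul]

end basic

section expansion

variable {R : Type*} [CommRing R]

lemma expand_step (q : R) (c : Fin 3 → R) (T : Fin 3 → MvPolynomial (Fin 3) R) (i : Fin 3) :
    Phi (fun j => C (c j) + C q * T j) i
      = C (Phi c i) + C q * (∑ j, C (Jac c i j) * T j + C q * T i ^ 2) := by
  have h2 : (C (2 : R) : MvPolynomial (Fin 3) R) = 2 := map_ofNat C 2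
  fin_cases i <;> simp [Phi, Jac, Fin.sum_univ_three, h2] <;> ring

lemma sum_one_mul (i : Fin 3) :
    (∑ j, C ((1 : Matrix (Fin 3) (Fin 3) R) i j) * X j : MvPolynomial (Fin 3) R) = X i := by
  rw [Finset.sum_eq_single i]
  · simp
  · intro j _ hj
    simp [Matrix.one_apply_ne (Ne.symm hj)]
  · simp

lemma expand (q : R) (β : Fin 3 → R) (n : ℕ) :
    ∃ T : Fin 3 → MvPolynomial (Fin 3) R,
      (∀ i, Phi^[n] (fun j => C (β j) + C q * X j) i = C (Phi^[n] β i) + C q * T i) ∧
      (∀ i, C q ∣ T i - ∑ j, C (JacIter n β i j) * X j) := by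
  induction n with
  | zero =>
    refine ⟨fun i => X i, fun i => rfl, fun i => ?_⟩
    have : (∑ j, C (JacIter 0 β i j) * X j : MvPolynomial (Fin 3) R) = X i := sum_one_mul i
    rw [this]
    simp
  | succ n ih =>
    obtain ⟨T, hT, hD⟩ := ih
    choose Q hQ using hD
    set c := Phi^[n] β with hc
    refine ⟨fun i => ∑ j, C (Jac c i j) * T j + C q * T i ^ 2, fun i => ?_, fun i => ?_⟩
    · rw [Function.iterate_succ_apply', Function.iterate_succ_apply', ← hc, ← expand_step]
      congr 1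
      funext j
      exact hT j
    · refine ⟨∑ j, C (Jac c i j) * Q j + T i ^ 2, ?_⟩
      simp only [JacIter, ← hc, Matrix.mul_apply, Fin.sum_univ_three, map_add, map_mul] at hQ ⊢
      linear_combination C (Jac c i 0) * hQ 0 + C (Jac c i 1) * hQ 1 + C (Jac c i 2) * hQ 2

lemma expand_return (q : R) (β : Fin 3 → R) (L : ℕ)
    (h1 : ∀ i, q ^ 2 ∣ Phi^[L] β i - β i) (h2 : ∀ i j, q ∣ (JacIter L β - 1) i j) :
    ∃ K : Fin 3 → MvPolynomial (Fin 3) R,
      (∀ i, Phi^[L] (fun j => C (β j) + C q * X j) i = C (β i) + C q * K i) ∧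
      (∀ i, C q ∣ K i - X i) := by
  obtain ⟨T, hT, hD⟩ := expand q β L
  choose Q hQ using hD
  choose γ hγ using h1
  choose δ hδ using h2
  refine ⟨fun i => T i + C q * C (γ i), fun i => ?_, fun i => ?_⟩
  · rw [hT i, show Phi^[L] β i = β i + q ^ 2 * γ i by rw [← hγ i]; ring]
    simp only [map_add, map_mul, map_pow]
    ring
  · refine ⟨Q i + C (γ i) + ∑ j, C (δ i j) * X j, ?_⟩
    have h3 : ∀ j, JacIter L β i j = (1 : Matrix (Fin 3) (Fin 3) R) i j + q * δ i j := by
      intro j
      rw [← hδ i j, Matrix.sub_apply]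
      ring
    have h4 : (∑ j, C ((1 : Matrix (Fin 3) (Fin 3) R) i j) * X j : MvPolynomial (Fin 3) R)
        = X i := sum_one_mul i
    have h5 := hQ i
    simp only [h3, map_add, map_mul, add_mul, Finset.sum_add_distrib, h4] at h5
    rw [mul_add, mul_add, Finset.mul_sum]
    have h6 : ∑ j, C q * (C (δ i j) * X j) = ∑ j, C q * C (δ i j) * X j := by
      apply Finset.sum_congr rfl
      intro j _
      ring
    rw [h6]
    linear_combination h5

lemma dvd_aeval_sub (q : R) (K : Fin 3 → MvPolynomial (Fin 3) R)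
    (hK : ∀ i, C q ∣ K i - X i) (P : MvPolynomial (Fin 3) R) :
    C q ∣ aeval K P - P := by
  induction P using MvPolynomial.induction_on with
  | C a => simp
  | add P Q hP hQ =>
    rw [map_add, show aeval K P + aeval K Q - (P + Q) = (aeval K P - P) + (aeval K Q - Q) by ring]
    exact dvd_add hP hQ
  | mul_X P i hP =>
    rw [map_mul, aeval_X, show aeval K P * K i - P * X i
      = (aeval K P - P) * K i + P * (K i - X i) by ring]
    exact dvd_add (Dvd.dvd.mul_right hP _) (Dvd.dvd.mul_left (hK i) _)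

/-- Iterated differences of `n ↦ E (Tⁿ P)` are divisible by powers of `q`. -/
lemma fwdDiff_dvd (q : R) (K : Fin 3 → MvPolynomial (Fin 3) R)
    (hK : ∀ i, C q ∣ K i - X i) (E : MvPolynomial (Fin 3) R →ₐ[R] R) (k : ℕ) :
    ∀ P : MvPolynomial (Fin 3) R, ∃ Q : MvPolynomial (Fin 3) R,
      ∀ n : ℕ, (fwdDiff 1)^[k] (fun n : ℕ => E (((aeval K :
        MvPolynomial (Fin 3) R →ₐ[R] MvPolynomial (Fin 3) R) ^ n) P)) n
        = q ^ k * E (((aeval K : MvPolynomial (Fin 3) R →ₐ[R] MvPolynomial (Fin 3) R) ^ n) Q) := by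
  induction k with
  | zero => intro P; exact ⟨P, fun n => by simp⟩
  | succ k ih =>
    intro P
    obtain ⟨P', hP'⟩ := dvd_aeval_sub q K hK P
    obtain ⟨Q, hQ⟩ := ih P'
    refine ⟨Q, fun n => ?_⟩
    set T : MvPolynomial (Fin 3) R →ₐ[R] MvPolynomial (Fin 3) R := aeval K with hT
    have h1 : fwdDiff 1 (fun n : ℕ => E ((T ^ n) P)) = q • (fun n : ℕ => E ((T ^ n) P')) := by
      funext m
      simp only [fwdDiff, Pi.smul_apply, smul_eq_mul]
      rw [← map_sub, pow_succ, AlgHom.mul_apply, ← map_sub, hP', map_mul, map_mul]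
      rw [show (C q : MvPolynomial (Fin 3) R) = algebraMap R _ q from rfl, AlgHom.commutes,
        AlgHom.commutes]
      rfl
    rw [Function.iterate_succ_apply, h1, fwdDiff_iter_const_smul, Pi.smul_apply, hQ n,
      smul_eq_mul, pow_succ]
    ring

/-- The orbit along the return map in terms of the algebra endomorphism `X ↦ K`. -/
lemma pow_aeval_orbit (q : R) (β : Fin 3 → R) (L : ℕ) (K : Fin 3 → MvPolynomial (Fin 3) R)
    (hK : ∀ i, Phi^[L] (fun j => C (β j) + C q * X j) i = C (β i) + C q * K i) (n : ℕ)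
    (i : Fin 3) :
    ((aeval K : MvPolynomial (Fin 3) R →ₐ[R] MvPolynomial (Fin 3) R) ^ n)
      (C (β i) + C q * X i) = Phi^[L * n] (fun j => C (β j) + C q * X j) i := by
  induction n with
  | zero => simp
  | succ n ih =>
    rw [pow_succ', AlgHom.mul_apply, ih]
    have h1 := Phi_iter_map (R := MvPolynomial (Fin 3) R) (S := MvPolynomial (Fin 3) R)
      ((aeval K : MvPolynomial (Fin 3) R →ₐ[R] MvPolynomial (Fin 3) R) : _ →+* _) (L * n)
      (fun j => C (β j) + C q * X j)
    have h2 := congrFun h1 i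
    simp only [RingHom.coe_coe] at h2
    rw [← h2]
    have h3 : (fun j => (aeval K : MvPolynomial (Fin 3) R →ₐ[R] MvPolynomial (Fin 3) R)
        (C (β j) + C q * X j)) = Phi^[L] (fun j => C (β j) + C q * X j) := by
      funext j
      rw [hK j]
      simp
    rw [h3, ← Function.iterate_add_apply]
    rfl

/-- Differences of monomials along the orbit of a return map. -/
lemma monomial_diff (q : R) (β : Fin 3 → R) (L : ℕ)
    (h1 : ∀ i, q ^ 2 ∣ Phi^[L] β i - β i) (h2 : ∀ i j, q ∣ (JacIter L β - 1) i j)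
    (m : Fin 3 →₀ ℕ) (k : ℕ) :
    q ^ k ∣ (fwdDiff 1)^[k] (fun n : ℕ => ∏ i, (Phi^[L * n] β i) ^ m i) 0 := by
  obtain ⟨K, hK1, hK2⟩ := expand_return q β L h1 h2
  set T : MvPolynomial (Fin 3) R →ₐ[R] MvPolynomial (Fin 3) R := aeval K with hT
  set E : MvPolynomial (Fin 3) R →ₐ[R] R := aeval (fun _ => (0 : R)) with hE
  obtain ⟨Q, hQ⟩ := fwdDiff_dvd q K hK2 E k (∏ i, (C (β i) + C q * X i) ^ m i)
  have h3 : (fun n : ℕ => ∏ i, (Phi^[L * n] β i) ^ m i)
      = fun n : ℕ => E ((T ^ n) (∏ i, (C (β i) + C q * X i) ^ m i)) := by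
    funext n
    rw [map_prod, map_prod]
    apply Finset.prod_congr rfl
    intro i _
    rw [map_pow, map_pow, pow_aeval_orbit q β L K hK1 n i]
    congr 1
    have h4 := congrFun (Phi_iter_map (R := MvPolynomial (Fin 3) R) (S := R)
      (E : MvPolynomial (Fin 3) R →+* R) (L * n) (fun j => C (β j) + C q * X j)) i
    simp only [RingHom.coe_coe] at h4
    rw [← h4]
    simp [hE]
  rw [h3, hQ 0]
  exact Dvd.intro _ rfl

end expansion

section core

/-- `k!` is `p^e` times a number prime to `p`, with `e ≤ k`. -/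
lemma factorial_split (p : ℕ) (hp : p.Prime) (k : ℕ) :
    ∃ e m : ℕ, e ≤ k ∧ m.Coprime p ∧ k.factorial = p ^ e * m := by
  obtain ⟨e, m, hm, he⟩ := Nat.exists_eq_pow_mul_and_not_dvd (Nat.factorial_ne_zero k) p
    hp.ne_one
  refine ⟨e, m, ?_, ?_, he⟩
  · have : Fact p.Prime := ⟨hp⟩
    have h1 : e ≤ padicValNat p k.factorial :=
      (padicValNat_dvd_iff_le (Nat.factorial_ne_zero k)).1 (Dvd.intro _ he.symm)
    have h2 := sub_one_mul_padicValNat_factorial (p := p) k
    have h3 : 1 ≤ p - 1 := by have := hp.two_le; omega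
    have h4 : padicValNat p k.factorial ≤ (p - 1) * padicValNat p k.factorial :=
      Nat.le_mul_of_pos_left _ h3
    omega
  · exact ((Nat.Prime.coprime_iff_not_dvd hp).2 hm).symm

/-- **Core statement.** On a residue class where a return map of `Φ` is congruent to the
identity, a polynomial which vanishes at infinitely many returns vanishes at all returns. -/
theorem core {D : Type*} [CommRing D] [Algebra D ℂ] (p : ℕ) (hp : p.Prime)
    (hunit : ∀ m : ℕ, m.Coprime p → IsUnit (m : D))
    (hsep : ∀ M : Submodule D ℂ, M.FG →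
      ∀ x : ℂ, (∀ k : ℕ, ∃ y ∈ M, x = (p : D) ^ k • y) → x = 0)
    (β : Fin 3 → D) (L : ℕ)
    (h1 : ∀ i, (p : D) ^ 4 ∣ Phi^[L] β i - β i)
    (h2 : ∀ i j, (p : D) ^ 2 ∣ (JacIter L β - 1) i j)
    (f : MvPolynomial (Fin 3) ℂ)
    (hinf : {n : ℕ | eval (fun i => algebraMap D ℂ (Phi^[L * n] β i)) f = 0}.Infinite)
    (n : ℕ) : eval (fun i => algebraMap D ℂ (Phi^[L * n] β i)) f = 0 := by
  set u : ℕ → ℂ := fun n => eval (fun i => algebraMap D ℂ (Phi^[L * n] β i)) f with hu
  let M : Submodule D ℂ := Submodule.span D (f.support.image (fun m => coeff m f) : Set ℂ)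
  have hMfg : M.FG := ⟨f.support.image (fun m => coeff m f), rfl⟩
  have hcoeffM : ∀ m ∈ f.support, coeff m f ∈ M := by
    intro m hm
    apply Submodule.subset_span
    rw [Finset.mem_coe]
    exact Finset.mem_image_of_mem _ hm
  -- the differences of `u` at `0`
  have hdiff : ∀ k, ∃ y ∈ M, (fwdDiff 1)^[k] u 0 = ((p : D) ^ 2) ^ k • y := by
    intro k
    have h3 : ∀ m : Fin 3 →₀ ℕ, ∃ r : D, (fwdDiff 1)^[k] (fun n : ℕ => ∏ i, (Phi^[L * n] β i) ^ m i) 0
        = ((p : D) ^ 2) ^ k * r := by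
      intro m
      exact monomial_diff ((p : D) ^ 2) β L (by
        intro i
        rw [← pow_mul]
        exact h1 i) h2 m k
    choose r hr using h3
    refine ⟨∑ m ∈ f.support, r m • coeff m f, ?_, ?_⟩
    · exact Submodule.sum_mem _ (fun m hm => M.smul_mem _ (hcoeffM m hm))
    · rw [fwdDiff_iter_eq_sum_shift]
      have h4 : ∀ n, u n = ∑ m ∈ f.support,
          coeff m f * algebraMap D ℂ (∏ i, (Phi^[L * n] β i) ^ m i) := by
        intro n
        rw [hu]
        simp only [eval_eq', map_prod, map_pow]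
      simp only [h4]
      rw [Finset.smul_sum]
      have h5 : ∀ m ∈ f.support, ((p : D) ^ 2) ^ k • r m • coeff m f
          = coeff m f * algebraMap D ℂ ((fwdDiff 1)^[k]
            (fun n : ℕ => ∏ i, (Phi^[L * n] β i) ^ m i) 0) := by
        intro m _
        rw [hr m, smul_smul, Algebra.smul_def, mul_comm]
      rw [Finset.sum_congr rfl h5]
      simp only [fwdDiff_iter_eq_sum_shift, Finset.smul_sum]
      rw [Finset.sum_comm]
      apply Finset.sum_congr rfl
      intro m _
      rw [map_sum, Finset.mul_sum]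
      apply Finset.sum_congr rfl
      intro j _
      rw [zsmul_eq_mul, zsmul_eq_mul, map_mul, map_intCast]
      ring
  let b : ℕ → ℂ := fun k => (fwdDiff 1)^[k] u 0 / (k.factorial : ℂ)
  have hsum : ∀ n, u n = ∑ k ∈ Finset.range (n + 1), b k * (n.descFactorial k : ℂ) := by
    intro n
    have h3 := shift_eq_sum_fwdDiff_iter (1 : ℕ) u n 0
    simp only [smul_eq_mul, mul_one, zero_add] at h3
    rw [h3]
    apply Finset.sum_congr rfl
    intro k _
    rw [Nat.descFactorial_eq_factorial_mul_choose, nsmul_eq_mul, Nat.cast_mul]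
    have : (k.factorial : ℂ) ≠ 0 := by exact_mod_cast Nat.factorial_ne_zero k
    simp only [b]
    field_simp
  have hb : ∀ k, ∃ y ∈ M, b k = (p : D) ^ k • y := by
    intro k
    obtain ⟨y, hy, hyu⟩ := hdiff k
    obtain ⟨e, m, hek, hmp, hfac⟩ := factorial_split p hp k
    obtain ⟨w, hw⟩ := hunit m hmp
    refine ⟨((p : D) ^ (k - e) * (↑(w⁻¹) : D)) • y, M.smul_mem _ hy, ?_⟩
    have hm0 : (m : ℂ) ≠ 0 := by
      rintro h
      have h3 : m = 0 := by exact_mod_cast h
      rw [h3] at hfac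
      exact Nat.factorial_ne_zero k (by simpa using hfac)
    have hp0 : (p : ℂ) ≠ 0 := by exact_mod_cast hp.ne_zero
    have hwinv : algebraMap D ℂ (↑(w⁻¹) : D) = (m : ℂ)⁻¹ := by
      have h3 : (w : D) * (↑(w⁻¹) : D) = 1 := by simp
      have h4 := congrArg (algebraMap D ℂ) h3
      rw [map_mul, hw, map_natCast, map_one] at h4
      exact eq_inv_of_mul_eq_one_right h4
    simp only [b]
    rw [hyu, hfac]
    simp only [Algebra.smul_def, map_mul, map_pow, map_natCast, hwinv, Nat.cast_mul, Nat.cast_pow]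
    have hk : ((p : ℂ) ^ 2) ^ k = (p : ℂ) ^ k * (p : ℂ) ^ (k - e) * (p : ℂ) ^ e := by
      rw [← pow_mul, ← pow_add, ← pow_add]
      congr 1
      omega
    rw [hk]
    field_simp
  exact strassmann M (p : D) (hsep M hMfg) b u hb hsum hinf n

end core

end Pool.Agent.MP_e9abfe
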