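import Mathlib
import Pool.Agent.Lib.MP_e9abfe_ag.Dyn

set_option autoImplicit false

/-!
An algebraic consequence of `Φ` being étale at the generic point of a `Φ`-invariant subvariety:
if `𝔅` is a prime ideal with `(Φ*)⁻¹ 𝔅 = 𝔅` which does not contain the Jacobian determinant, then
`h 𝔅 ⊆ Φ*(𝔅) A` for some `h ∉ 𝔅`.
-/

namespace Pool.Agent.MP_e9abfe

open MvPolynomial

section

variable (k : Type*) [Field k]

/-- Pull back of functions along `Φ`. -/
noncomputable def pull : MvPolynomial (Fin 3) k →ₐ[k] MvPolynomial (Fin 3) k :=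
  aeval (Phi (fun i => X i))

/-- The minimal equation of the first coordinate over the coordinates of `Φ`. -/
noncomputable def eqF : Polynomial (MvPolynomial (Fin 3) k) :=
  ((Polynomial.X ^ 2 - Polynomial.C (X 0)) ^ 2 - Polynomial.C (X 1)) ^ 2
    + (Polynomial.X - Polynomial.C (X 2))

/-- Evaluation of polynomials with coefficients pulled back. -/
noncomputable def ev : Polynomial (MvPolynomial (Fin 3) k) →+* MvPolynomial (Fin 3) k :=
  Polynomial.eval₂RingHom (pull k : MvPolynomial (Fin 3) k →+* MvPolynomial (Fin 3) k) (X 0)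

lemma ev_C (a : MvPolynomial (Fin 3) k) : ev k (Polynomial.C a) = pull k a := by
  simp [ev]

lemma ev_X : ev k Polynomial.X = X 0 := by
  simp [ev]

lemma pull_X (i : Fin 3) : pull k (X i) = Phi (fun i => X i) i := by
  simp [pull]

lemma ev_eqF : ev k (eqF k) = 0 := by
  simp only [eqF, map_add, map_sub, map_pow, ev_C, ev_X, pull_X, Phi]
  simp

lemma ev_derivative_eqF :
    ev k (Polynomial.derivative (eqF k)) = 1 + 8 * (X 0 * X 1 * X 2) := by
  have h1 : Polynomial.derivative (eqF k)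
      = 8 * ((Polynomial.X ^ 2 - Polynomial.C (X 0)) ^ 2 - Polynomial.C (X 1))
        * (Polynomial.X ^ 2 - Polynomial.C (X 0)) * Polynomial.X + 1 := by
    have h2 : (Polynomial.C (2 : MvPolynomial (Fin 3) k)) = 2 := map_ofNat _ 2
    simp only [eqF, Polynomial.derivative_add, Polynomial.derivative_sub,
      Polynomial.derivative_pow, Polynomial.derivative_X, Polynomial.derivative_C]
    simp
    rw [h2]
    ring
  rw [h1]
  have h8 : ev k 8 = 8 := map_ofNat (ev k) 8
  simp only [map_add, map_sub, map_mul, map_pow, ev_C, ev_X, pull_X, Phi, map_one, h8]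
  simp
  ring

lemma eqF_monic : (eqF k).Monic := by
  have h1 : (Polynomial.X ^ 2 - Polynomial.C (X 0 : MvPolynomial (Fin 3) k)).Monic :=
    Polynomial.monic_X_pow_sub_C _ (by norm_num)
  have d1 : (Polynomial.X ^ 2 - Polynomial.C (X 0 : MvPolynomial (Fin 3) k)).natDegree = 2 :=
    Polynomial.natDegree_X_pow_sub_C
  have h2 : ((Polynomial.X ^ 2 - Polynomial.C (X 0 : MvPolynomial (Fin 3) k)) ^ 2
      - Polynomial.C (X 1)).Monic := by
    apply (h1.pow 2).sub_of_left
    apply lt_of_le_of_lt Polynomial.degree_C_le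
    rw [Polynomial.degree_eq_natDegree (h1.pow 2).ne_zero, h1.natDegree_pow, d1]
    norm_num
  have d2 : ((Polynomial.X ^ 2 - Polynomial.C (X 0 : MvPolynomial (Fin 3) k)) ^ 2
      - Polynomial.C (X 1)).natDegree = 4 := by
    rw [Polynomial.natDegree_sub_C, h1.natDegree_pow, d1]
  unfold eqF
  apply (h2.pow 2).add_of_left
  apply lt_of_le_of_lt (Polynomial.degree_sub_le _ _)
  rw [Polynomial.degree_eq_natDegree (h2.pow 2).ne_zero, h2.natDegree_pow, d2]
  apply lt_of_le_of_lt (max_le_max Polynomial.degree_X_le Polynomial.degree_C_le)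
  norm_num

lemma ev_surjective : Function.Surjective (ev k) := by
  intro g
  show g ∈ (ev k).range
  have hX0 : (X 0 : MvPolynomial (Fin 3) k) ∈ (ev k).range := ⟨_, ev_X k⟩
  have hp : ∀ a, pull k a ∈ (ev k).range := fun a => ⟨_, ev_C k a⟩
  have hX1 : (X 1 : MvPolynomial (Fin 3) k) ∈ (ev k).range := by
    have h1 : (X 1 : MvPolynomial (Fin 3) k) = pull k (X 0) - X 0 ^ 2 := by
      rw [pull_X]; simp [Phi]
    rw [h1]
    exact sub_mem (hp _) (pow_mem hX0 2)
  have hX2 : (X 2 : MvPolynomial (Fin 3) k) ∈ (ev k).range := by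
    have h1 : (X 2 : MvPolynomial (Fin 3) k) = pull k (X 1) - X 1 ^ 2 := by
      rw [pull_X]; simp [Phi]
    rw [h1]
    exact sub_mem (hp _) (pow_mem hX1 2)
  induction g using MvPolynomial.induction_on with
  | C c =>
    have h1 : (C c : MvPolynomial (Fin 3) k) = pull k (C c) := by
      simp [pull]
    rw [h1]
    exact hp _
  | add p q h1 h2 => exact add_mem h1 h2
  | mul_X p i h =>
    refine mul_mem h ?_
    fin_cases i
    · exact hX0
    · exact hX1
    · exact hX2

lemma ev_mem_map (𝔅 : Ideal (MvPolynomial (Fin 3) k)) (G : Polynomial (MvPolynomial (Fin 3) k))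
    (hG : ∀ n, G.coeff n ∈ 𝔅) : ev k G ∈ Ideal.map (pull k) 𝔅 := by
  rw [ev, Polynomial.coe_eval₂RingHom, Polynomial.eval₂_eq_sum_range]
  apply Ideal.sum_mem
  intro i _
  apply Ideal.mul_mem_right
  exact Ideal.mem_map_of_mem _ (hG i)

/-- The étale lemma. -/
theorem etale_lemma (𝔅 : Ideal (MvPolynomial (Fin 3) k)) [h𝔅 : 𝔅.IsPrime]
    (hcomap : 𝔅.comap (pull k) = 𝔅) (hJ : (1 + 8 * (X 0 * X 1 * X 2)) ∉ 𝔅) :
    ∃ h : MvPolynomial (Fin 3) k, h ∉ 𝔅 ∧ ∀ g ∈ 𝔅, h * g ∈ Ideal.map (pull k) 𝔅 := by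
  classical
  let A := MvPolynomial (Fin 3) k
  let D := A ⧸ 𝔅
  let K := FractionRing D
  let mk : A →+* D := Ideal.Quotient.mk 𝔅
  let ι : D →+* K := algebraMap D K
  have hι : Function.Injective ι := IsFractionRing.injective D K
  have hmkι : ∀ a : A, ι (mk a) = 0 ↔ a ∈ 𝔅 := by
    intro a
    rw [map_eq_zero_iff ι hι]
    exact Ideal.Quotient.eq_zero_iff_mem
  -- the induced map on the quotient and on the fraction field
  let π : D →+* D := Ideal.quotientMap 𝔅 (pull k : A →+* A) (le_of_eq hcomap.symm)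
  have hπmk : ∀ a, π (mk a) = mk (pull k a) := fun a => Ideal.quotientMap_mk
  have hπ : Function.Injective π := by
    rw [injective_iff_map_eq_zero]
    intro d hd
    obtain ⟨a, rfl⟩ := Ideal.Quotient.mk_surjective d
    have h1 : mk (pull k a) = 0 := by rw [← hπmk]; exact hd
    have h2 : pull k a ∈ 𝔅 := Ideal.Quotient.eq_zero_iff_mem.1 h1
    have h3 : a ∈ 𝔅.comap (pull k) := h2
    rw [hcomap] at h3
    exact Ideal.Quotient.eq_zero_iff_mem.2 h3
  have hιπ : Function.Injective (ι.comp π) := hι.comp hπ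
  let φ : K →+* K := IsFractionRing.lift hιπ
  have hφ : ∀ d, φ (ι d) = ι (π d) := fun d => IsFractionRing.lift_algebraMap hιπ d
  have hφinj : Function.Injective φ := φ.injective
  let ε : Polynomial K →+* K := Polynomial.eval₂RingHom φ (ι (mk (X 0)))
  have hε : ∀ G : Polynomial A, ε (G.map (ι.comp mk)) = ι (mk (ev k G)) := by
    intro G
    have h1 : ε.comp (Polynomial.mapRingHom (ι.comp mk)) = (ι.comp mk).comp (ev k) := by
      apply Polynomial.ringHom_ext
      · intro a
        simp only [RingHom.comp_apply, Polynomial.coe_mapRingHom, Polynomial.map_C, ε,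
          Polynomial.coe_eval₂RingHom, Polynomial.eval₂_C]
        rw [hφ, hπmk]
        exact congrArg (fun t => ι (mk t)) (ev_C k a).symm
      · simp only [RingHom.comp_apply, Polynomial.coe_mapRingHom, Polynomial.map_X, ε,
          Polynomial.coe_eval₂RingHom, Polynomial.eval₂_X]
        exact congrArg (fun t => ι (mk t)) (ev_X k).symm
    exact congrArg (fun f : Polynomial A →+* K => f G) h1
  let ρ : Polynomial K := Submodule.IsPrincipal.generator (RingHom.ker ε)
  have hρ : ∀ G, ε G = 0 → ρ ∣ G := by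
    intro G hG
    rw [← Submodule.IsPrincipal.mem_iff_generator_dvd]
    exact hG
  have hρ0 : ε ρ = 0 := Submodule.IsPrincipal.generator_mem (RingHom.ker ε)
  have hF0 : ε ((eqF k).map (ι.comp mk)) = 0 := by rw [hε, ev_eqF, map_zero, map_zero]
  obtain ⟨θ, hθ⟩ := hρ _ hF0
  have hθ0 : ε θ ≠ 0 := by
    intro h0
    have h1 : ε (Polynomial.derivative ((eqF k).map (ι.comp mk))) = 0 := by
      rw [hθ, Polynomial.derivative_mul, map_add, map_mul, map_mul, hρ0, h0]
      simp
    rw [Polynomial.derivative_map, hε, ev_derivative_eqF, hmkι] at h1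
    exact hJ h1
  obtain ⟨d, hdmem, hd⟩ := IsLocalization.integerNormalization_spec (nonZeroDivisors D) θ
  set Θ₀ := IsLocalization.integerNormalization (nonZeroDivisors D) θ with hΘ₀
  have hd0 : d ≠ 0 := nonZeroDivisors.ne_zero hdmem
  have hd' : Θ₀.map ι = Polynomial.C (ι d) * θ := by
    rw [show Θ₀.map ι = Θ₀.map (algebraMap D K) from rfl, hd, ← Polynomial.smul_eq_C_mul]
    exact (algebraMap_smul K d θ).symm
  obtain ⟨Θ, hΘ⟩ := Polynomial.map_surjective mk Ideal.Quotient.mk_surjective Θ₀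
  refine ⟨ev k Θ, ?_, ?_⟩
  · intro hmem
    have h1 := (hmkι _).2 hmem
    rw [← hε, ← Polynomial.map_map, hΘ, hd', map_mul] at h1
    rcases mul_eq_zero.1 h1 with h2 | h2
    · simp only [ε, Polynomial.coe_eval₂RingHom, Polynomial.eval₂_C] at h2
      have h3 : ι d = 0 := by rwa [map_eq_zero_iff φ hφinj] at h2
      rw [map_eq_zero_iff ι hι] at h3
      exact hd0 h3
    · exact hθ0 h2
  · intro g hg
    obtain ⟨G, rfl⟩ := ev_surjective k g
    have h1 : ε (G.map (ι.comp mk)) = 0 := by rw [hε, hmkι]; exact hg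
    obtain ⟨G₁, hG₁⟩ := hρ _ h1
    have hdvd : ((eqF k).map mk).map ι ∣ (Θ₀ * G.map mk).map ι := by
      rw [Polynomial.map_mul, hd', Polynomial.map_map, Polynomial.map_map, hθ, hG₁]
      exact ⟨Polynomial.C (ι d) * G₁, by ring⟩
    rw [Polynomial.map_dvd_map ι hι ((eqF_monic k).map mk)] at hdvd
    obtain ⟨Q₀, hQ₀⟩ := hdvd
    obtain ⟨Q, hQ⟩ := Polynomial.map_surjective mk Ideal.Quotient.mk_surjective Q₀
    have h2 : (Θ * G - eqF k * Q).map mk = 0 := by
      rw [Polynomial.map_sub, Polynomial.map_mul, Polynomial.map_mul, hΘ, hQ, hQ₀, sub_self]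
    have h3 : ∀ n, (Θ * G - eqF k * Q).coeff n ∈ 𝔅 := by
      intro n
      have h4 := congrArg (fun P => Polynomial.coeff P n) h2
      simp only [Polynomial.coeff_map, Polynomial.coeff_zero] at h4
      exact Ideal.Quotient.eq_zero_iff_mem.1 h4
    have h4 := ev_mem_map k 𝔅 _ h3
    rwa [map_sub, map_mul, map_mul, ev_eqF, zero_mul, sub_zero] at h4

end

end Pool.Agent.MP_e9abfe
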