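import Mathlib

set_option autoImplicit false

/-!
Sequences with asymptotic expansions in the exponential sequences `n ↦ exp (l 2 ^ n)`.
-/

namespace Pool.Agent.MP_e9abfe

open Filter Topology

/-- The sequence `n ↦ exp (l 2 ^ n)`. -/
noncomputable def chi (l : ℝ) : ℕ → ℝ := fun n => Real.exp (l * 2 ^ n)

lemma chi_mul (l m : ℝ) : chi l * chi m = chi (l + m) := by
  funext n
  simp only [chi, Pi.mul_apply]
  rw [← Real.exp_add, add_mul]

lemma chi_zero : chi 0 = 1 := by
  funext n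
  simp [chi]

lemma chi_succ (l : ℝ) (n : ℕ) : chi l (n + 1) = chi (2 * l) n := by
  simp only [chi]
  congr 1
  rw [pow_succ]
  ring

lemma chi_pos (l : ℝ) (n : ℕ) : 0 < chi l n := Real.exp_pos _

lemma chi_mono {l m : ℝ} (h : l ≤ m) (n : ℕ) : chi l n ≤ chi m n := by
  apply Real.exp_le_exp.2
  exact mul_le_mul_of_nonneg_right h (by positivity)

lemma chi_mul_apply (l m : ℝ) (n : ℕ) : chi l n * chi m n = chi (l + m) n := by
  rw [← chi_mul]; rfl

lemma tendsto_chi_neg {l : ℝ} (h : l < 0) : Tendsto (chi l) atTop (𝓝 0) := by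
  have h1 : Tendsto (fun n : ℕ => l * (2 : ℝ) ^ n) atTop atBot :=
    (tendsto_pow_atTop_atTop_of_one_lt (by norm_num : (1 : ℝ) < 2)).const_mul_atTop_of_neg h
  exact Real.tendsto_exp_atBot.comp h1

/-- Finite exponential sums. -/
noncomputable def ExpSum : Submodule ℝ (ℕ → ℝ) := Submodule.span ℝ (Set.range chi)

lemma chi_mem (l : ℝ) : chi l ∈ ExpSum := Submodule.subset_span ⟨l, rfl⟩

lemma ExpSum_one : (1 : ℕ → ℝ) ∈ ExpSum := by
  rw [← chi_zero]; exact chi_mem 0

lemma ExpSum_mul {e f : ℕ → ℝ} (he : e ∈ ExpSum) (hf : f ∈ ExpSum) : e * f ∈ ExpSum := by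
  unfold ExpSum at he
  induction he using Submodule.span_induction with
  | mem x hx =>
    obtain ⟨l, rfl⟩ := hx
    unfold ExpSum at hf
    induction hf using Submodule.span_induction with
    | mem y hy =>
      obtain ⟨m, rfl⟩ := hy
      rw [chi_mul]
      exact chi_mem _
    | zero => rw [mul_zero]; exact Submodule.zero_mem _
    | add x y _ _ hx hy => rw [mul_add]; exact Submodule.add_mem _ hx hy
    | smul c x _ hx => rw [mul_smul_comm]; exact Submodule.smul_mem _ _ hx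
  | zero => rw [zero_mul]; exact Submodule.zero_mem _
  | add x y _ _ hx hy => rw [add_mul]; exact Submodule.add_mem _ hx hy
  | smul c x _ hx => rw [smul_mul_assoc]; exact Submodule.smul_mem _ _ hx

lemma ExpSum_shift {e : ℕ → ℝ} (he : e ∈ ExpSum) : (fun n => e (n + 1)) ∈ ExpSum := by
  unfold ExpSum at he
  induction he using Submodule.span_induction with
  | mem x hx =>
    obtain ⟨l, rfl⟩ := hx
    have : (fun n => chi l (n + 1)) = chi (2 * l) := by
      funext n; exact chi_succ l n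
    rw [this]
    exact chi_mem _
  | zero => exact Submodule.zero_mem _
  | add x y _ _ hx hy => exact Submodule.add_mem _ hx hy
  | smul c x _ hx => exact Submodule.smul_mem _ c hx

/-- Either an exponential sum is small or it has a dominant term. -/
lemma ExpSum_dichotomy {e : ℕ → ℝ} (he : e ∈ ExpSum) (N : ℝ) :
    (∃ K : ℝ, ∀ n, |e n| ≤ K * chi (-N) n) ∨
      ∃ l : ℝ, -N < l ∧ ∃ a : ℝ, a ≠ 0 ∧ Tendsto (fun n => e n * chi (-l) n) atTop (𝓝 a) := by
  obtain ⟨c, rfl⟩ := (Finsupp.mem_span_range_iff_exists_finsupp).1 he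
  have hc : ∀ n, (c.sum fun l a => a • chi l) n = ∑ l ∈ c.support, c l * chi l n := by
    intro n
    rw [Finsupp.sum, Finset.sum_apply]
    rfl
  by_cases h : ∀ l ∈ c.support, l ≤ -N
  · left
    refine ⟨∑ l ∈ c.support, |c l|, fun n => ?_⟩
    rw [hc, Finset.sum_mul]
    apply (Finset.abs_sum_le_sum_abs _ _).trans
    apply Finset.sum_le_sum
    intro l hl
    rw [abs_mul, abs_of_pos (chi_pos l n)]
    exact mul_le_mul_of_nonneg_left (chi_mono (h l hl) n) (abs_nonneg _)
  · right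
    push Not at h
    obtain ⟨l1, hl1, hl1N⟩ := h
    have hne : c.support.Nonempty := ⟨l1, hl1⟩
    set l0 := c.support.max' hne with hl0
    have hl0mem : l0 ∈ c.support := Finset.max'_mem _ _
    refine ⟨l0, lt_of_lt_of_le hl1N (Finset.le_max' _ _ hl1), c l0,
      Finsupp.mem_support_iff.1 hl0mem, ?_⟩
    have h1 : ∀ n, (c.sum fun l a => a • chi l) n * chi (-l0) n
        = ∑ l ∈ c.support, c l * chi (l - l0) n := by
      intro n
      rw [hc, Finset.sum_mul]
      apply Finset.sum_congr rfl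
      intro l _
      rw [mul_assoc, chi_mul_apply, sub_eq_add_neg]
    simp only [h1]
    have h2 : c l0 = ∑ l ∈ c.support, if l = l0 then c l else 0 := by
      rw [Finset.sum_ite_eq' c.support l0 (fun l => c l), if_pos hl0mem]
    rw [h2]
    apply tendsto_finsetSum
    intro l hl
    by_cases hll : l = l0
    · rw [if_pos hll, hll, sub_self, chi_zero]
      simp only [Pi.one_apply, mul_one]
      exact tendsto_const_nhds
    · rw [if_neg hll]
      have hlt : l - l0 < 0 := by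
        have := lt_of_le_of_ne (Finset.le_max' _ _ hl) hll
        linarith
      have h3 := (tendsto_chi_neg hlt).const_mul (c l)
      rwa [mul_zero] at h3

lemma ExpSum_bound {e : ℕ → ℝ} (he : e ∈ ExpSum) :
    ∃ (C : ℕ) (K : ℝ), 0 ≤ K ∧ ∀ n, |e n| ≤ K * chi C n := by
  unfold ExpSum at he
  induction he using Submodule.span_induction with
  | mem x hx =>
    obtain ⟨l, rfl⟩ := hx
    obtain ⟨C, hC⟩ := exists_nat_ge l
    refine ⟨C, 1, zero_le_one, fun n => ?_⟩
    rw [abs_of_pos (chi_pos l n), one_mul]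
    exact chi_mono hC n
  | zero => exact ⟨0, 0, le_rfl, fun n => by simp⟩
  | add x y _ _ hx hy =>
    obtain ⟨C1, K1, hK1, h1⟩ := hx
    obtain ⟨C2, K2, hK2, h2⟩ := hy
    refine ⟨C1 + C2, K1 + K2, add_nonneg hK1 hK2, fun n => ?_⟩
    have a1 : chi C1 n ≤ chi ((C1 + C2 : ℕ) : ℝ) n := chi_mono (by push_cast; linarith) n
    have a2 : chi C2 n ≤ chi ((C1 + C2 : ℕ) : ℝ) n := chi_mono (by push_cast; linarith) n
    calc |(x + y) n| ≤ |x n| + |y n| := abs_add_le _ _
      _ ≤ K1 * chi C1 n + K2 * chi C2 n := add_le_add (h1 n) (h2 n)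
      _ ≤ K1 * chi ((C1 + C2 : ℕ) : ℝ) n + K2 * chi ((C1 + C2 : ℕ) : ℝ) n :=
          add_le_add (mul_le_mul_of_nonneg_left a1 hK1) (mul_le_mul_of_nonneg_left a2 hK2)
      _ = _ := by ring
  | smul c x _ hx =>
    obtain ⟨C1, K1, hK1, h1⟩ := hx
    refine ⟨C1, |c| * K1, mul_nonneg (abs_nonneg _) hK1, fun n => ?_⟩
    rw [Pi.smul_apply, smul_eq_mul, abs_mul, mul_assoc]
    exact mul_le_mul_of_nonneg_left (h1 n) (abs_nonneg _)

/-- Sequences with an asymptotic expansion to every order. -/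
def AsE (u : ℕ → ℝ) : Prop :=
  ∀ N : ℕ, ∃ e ∈ ExpSum, ∃ K : ℝ, 0 ≤ K ∧ ∀ n, |u n - e n| ≤ K * chi (-N) n

lemma AsE.of_mem {e : ℕ → ℝ} (he : e ∈ ExpSum) : AsE e :=
  fun N => ⟨e, he, 0, le_rfl, fun n => by simp⟩

lemma AsE.add {u v : ℕ → ℝ} (hu : AsE u) (hv : AsE v) : AsE (u + v) := by
  intro N
  obtain ⟨e, he, K, hK, h1⟩ := hu N
  obtain ⟨f, hf, L, hL, h2⟩ := hv N
  refine ⟨e + f, Submodule.add_mem _ he hf, K + L, add_nonneg hK hL, fun n => ?_⟩
  have h3 : (u + v) n - (e + f) n = (u n - e n) + (v n - f n) := by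
    simp only [Pi.add_apply]; ring
  rw [h3, add_mul]
  exact (abs_add_le _ _).trans (add_le_add (h1 n) (h2 n))

lemma AsE.bound {u : ℕ → ℝ} (hu : AsE u) :
    ∃ (C : ℕ) (K : ℝ), 0 ≤ K ∧ ∀ n, |u n| ≤ K * chi C n := by
  obtain ⟨e, he, K, hK, h1⟩ := hu 0
  obtain ⟨C, L, hL, h2⟩ := ExpSum_bound he
  refine ⟨C, K + L, add_nonneg hK hL, fun n => ?_⟩
  have h3 : chi (-(0 : ℕ)) n ≤ chi C n := chi_mono (by push_cast; simp) n
  calc |u n| = |(u n - e n) + e n| := by ring_nf
    _ ≤ |u n - e n| + |e n| := abs_add_le _ _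
    _ ≤ K * chi (-(0 : ℕ)) n + L * chi C n := add_le_add (h1 n) (h2 n)
    _ ≤ K * chi C n + L * chi C n := by
        have := mul_le_mul_of_nonneg_left h3 hK
        linarith
    _ = _ := by ring

lemma AsE.mul {u v : ℕ → ℝ} (hu : AsE u) (hv : AsE v) : AsE (u * v) := by
  intro N
  obtain ⟨C1, K1, hK1, hb1⟩ := hu.bound
  obtain ⟨f, hf, L, hL, h2⟩ := hv (N + C1)
  obtain ⟨C2, K2, hK2, hb2⟩ := ExpSum_bound hf
  obtain ⟨e, he, K, hK, h1⟩ := hu (N + C2)
  refine ⟨e * f, ExpSum_mul he hf, K1 * L + K * K2,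
    add_nonneg (mul_nonneg hK1 hL) (mul_nonneg hK hK2), fun n => ?_⟩
  have h3 : (u * v) n - (e * f) n = u n * (v n - f n) + (u n - e n) * f n := by
    simp only [Pi.mul_apply]; ring
  rw [h3]
  apply (abs_add_le _ _).trans
  rw [abs_mul, abs_mul, add_mul]
  have c1 : chi C1 n * chi (-(N + C1 : ℕ)) n = chi (-N) n := by
    rw [chi_mul_apply]; congr 1; push_cast; ring
  have c2 : chi (-(N + C2 : ℕ)) n * chi C2 n = chi (-N) n := by
    rw [chi_mul_apply]; congr 1; push_cast; ring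
  have a1 : |u n| * |v n - f n| ≤ (K1 * chi C1 n) * (L * chi (-(N + C1 : ℕ)) n) :=
    mul_le_mul (hb1 n) (h2 n) (abs_nonneg _) (mul_nonneg hK1 (chi_pos _ _).le)
  have a2 : |u n - e n| * |f n| ≤ (K * chi (-(N + C2 : ℕ)) n) * (K2 * chi C2 n) :=
    mul_le_mul (h1 n) (hb2 n) (abs_nonneg _) (mul_nonneg hK (chi_pos _ _).le)
  have a1' : (K1 * chi C1 n) * (L * chi (-(N + C1 : ℕ)) n) = K1 * L * chi (-N) n := by
    rw [← c1]; ring
  have a2' : (K * chi (-(N + C2 : ℕ)) n) * (K2 * chi C2 n) = K * K2 * chi (-N) n := by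
    rw [← c2]; ring
  rw [a1'] at a1
  rw [a2'] at a2
  exact add_le_add a1 a2

/-- Sequences smaller than every `exp (- N 2 ^ n)`. -/
def Flat (u : ℕ → ℝ) : Prop := ∀ N : ℕ, ∃ K : ℝ, 0 ≤ K ∧ ∀ n, |u n| ≤ K * chi (-N) n

lemma AsE.dichotomy {u : ℕ → ℝ} (hu : AsE u) :
    Flat u ∨ ∃ (C : ℕ) (c : ℝ), 0 < c ∧ ∃ n0, ∀ n ≥ n0, c * chi (-C) n ≤ |u n| := by
  by_cases hflat : Flat u
  · exact Or.inl hflat
  · right
    unfold Flat at hflat
    push Not at hflat
    obtain ⟨N, hN⟩ := hflat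
    obtain ⟨e, he, K, hK, h1⟩ := hu N
    rcases ExpSum_dichotomy he N with ⟨L, hL⟩ | ⟨l, hl, a, ha, hlim⟩
    · exfalso
      have hL0 : 0 ≤ |L| := abs_nonneg _
      obtain ⟨n, hn⟩ := hN (K + |L|) (add_nonneg hK hL0)
      have h2 : |u n| ≤ |u n - e n| + |e n| := by
        calc |u n| = |(u n - e n) + e n| := by ring_nf
          _ ≤ _ := abs_add_le _ _
      have h3 : L * chi (-N) n ≤ |L| * chi (-N) n :=
        mul_le_mul_of_nonneg_right (le_abs_self L) (chi_pos _ _).le
      have h4 := h1 n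
      have h5 := hL n
      rw [add_mul] at hn
      linarith
    · refine ⟨N, |a| / 2, by positivity, ?_⟩
      have hlim2 : Tendsto (fun n => u n * chi (-l) n) atTop (𝓝 a) := by
        have h2 : Tendsto (fun n => (u n - e n) * chi (-l) n) atTop (𝓝 0) := by
          have h3 : Tendsto (fun n => K * chi (-N - l) n) atTop (𝓝 0) := by
            have := (tendsto_chi_neg (show -(N : ℝ) - l < 0 by linarith)).const_mul K
            rwa [mul_zero] at this
          apply squeeze_zero_norm _ h3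
          intro n
          rw [Real.norm_eq_abs, abs_mul, abs_of_pos (chi_pos (-l) n)]
          have h4 := mul_le_mul_of_nonneg_right (h1 n) (chi_pos (-l) n).le
          rw [mul_assoc, chi_mul_apply, ← sub_eq_add_neg] at h4
          exact h4
        have h3 := h2.add hlim
        rw [zero_add] at h3
        refine h3.congr (fun n => ?_)
        ring
      have habs := hlim2.abs
      have hev : ∀ᶠ n in atTop, |a| / 2 < |u n * chi (-l) n| := by
        apply habs.eventually (lt_mem_nhds _)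
        have : 0 < |a| := abs_pos.2 ha
        linarith
      obtain ⟨n0, hn0⟩ := eventually_atTop.1 hev
      refine ⟨n0, fun n hn => ?_⟩
      have h2 := (hn0 n hn).le
      rw [abs_mul, abs_of_pos (chi_pos (-l) n)] at h2
      have h3 : |u n| = (|u n| * chi (-l) n) * chi l n := by
        rw [mul_assoc, chi_mul_apply, neg_add_cancel, chi_zero, Pi.one_apply, mul_one]
      rw [h3]
      have h4 : chi (-N) n ≤ chi l n := chi_mono hl.le n
      have h5 : 0 ≤ |u n| * chi (-l) n := mul_nonneg (abs_nonneg _) (chi_pos _ _).le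
      calc |a| / 2 * chi (-N) n ≤ (|u n| * chi (-l) n) * chi (-N) n :=
            mul_le_mul_of_nonneg_right h2 (chi_pos _ _).le
        _ ≤ _ := mul_le_mul_of_nonneg_left h4 h5

end Pool.Agent.MP_e9abfe
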