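import Mathlib
import Pool.Agent.Lib.MP_e9abfe_ag.Dyn
import Pool.Agent.Lib.MP_e9abfe_ag.Exp
import Pool.Agent.Lib.MP_e9abfe_ag.Etale

set_option autoImplicit false

/-!
Real orbits with positive coordinates: the squares dominate and every polynomial in the
coordinates has an asymptotic expansion in exponential sequences.
-/

namespace Pool.Agent.MP_e9abfe

open MvPolynomial Filter Topology

lemma Phi_apply {R : Type*} [CommRing R] (v : Fin 3 → R) (i : Fin 3) :
    Phi v i = v i ^ 2 + v (i + 1) := by
  fin_cases i <;> rfl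

section small

variable (v : ℕ → Fin 3 → ℝ) (hv : ∀ n, v (n + 1) = Phi (v n))

/-- The quotient of the lower order term by the square. -/
noncomputable def pr (n : ℕ) (i : Fin 3) : ℝ := v n (i + 1) / (v n i) ^ 2

include hv

lemma pos_all (hpos : ∀ i, 0 < v 0 i) (n : ℕ) : ∀ i, 0 < v n i := by
  induction n with
  | zero => exact hpos
  | succ n ih =>
    intro i
    rw [hv, Phi_apply]
    have := ih (i + 1)
    positivity

variable (hpos : ∀ n i, 0 < v n i)

include hpos

lemma pr_pos (n : ℕ) (i : Fin 3) : 0 < pr v n i := by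
  have h1 := hpos n i
  have h2 := hpos n (i + 1)
  unfold pr
  positivity

lemma v_succ (n : ℕ) (i : Fin 3) : v (n + 1) i = v n i ^ 2 * (1 + pr v n i) := by
  have h1 := (hpos n i).ne'
  rw [hv, Phi_apply, pr]
  field_simp

lemma pr_succ (n : ℕ) (i : Fin 3) :
    pr v (n + 1) i = (pr v n i / (1 + pr v n i)) ^ 2 * (1 + pr v n (i + 1)) := by
  have h1 := (hpos n i).ne'
  have h2 := (hpos n (i + 1)).ne'
  have h3 : (1 + pr v n i) ≠ 0 := by
    have := pr_pos v hv hpos n i
    positivity
  have h4 : pr v (n + 1) i = v (n + 1) (i + 1) / (v (n + 1) i) ^ 2 := rfl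
  rw [h4, v_succ v hv hpos n i, v_succ v hv hpos n (i + 1)]
  have h5 : pr v n i * (v n i) ^ 2 = v n (i + 1) := by
    rw [pr]; field_simp
  rw [← h5]
  field_simp

lemma pr_step (n : ℕ) (L : ℝ) (h : ∀ i, pr v n i ≤ L) (i : Fin 3) :
    pr v (n + 1) i ≤ L * (L / (1 + L)) := by
  have hp := pr_pos v hv hpos n i
  have hq := pr_pos v hv hpos n (i + 1)
  have hL : 0 < L := lt_of_lt_of_le hp (h i)
  rw [pr_succ v hv hpos]
  have h1 : pr v n i / (1 + pr v n i) ≤ L / (1 + L) := by
    rw [div_le_div_iff₀ (by positivity) (by positivity)]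
    have := h i
    nlinarith
  have h2 : (pr v n i / (1 + pr v n i)) ^ 2 ≤ (L / (1 + L)) ^ 2 :=
    pow_le_pow_left₀ (by positivity) h1 2
  have h3 : 1 + pr v n (i + 1) ≤ 1 + L := by
    have := h (i + 1)
    linarith
  calc _ ≤ (L / (1 + L)) ^ 2 * (1 + L) :=
        mul_le_mul h2 h3 (by positivity) (by positivity)
    _ = L * (L / (1 + L)) := by
        have : (1 + L) ≠ 0 := by positivity
        field_simp

lemma small_exists : ∃ n1, ∀ n i, pr v (n1 + n) i ≤ (1 / 2 : ℝ) ^ (2 ^ n) := by
  obtain ⟨K, hK0, hK⟩ : ∃ K : ℝ, 0 < K ∧ ∀ i, pr v 0 i ≤ K := by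
    refine ⟨pr v 0 0 + pr v 0 1 + pr v 0 2, ?_, ?_⟩
    · have h0 := pr_pos v hv hpos 0 0
      have h1 := pr_pos v hv hpos 0 1
      have h2 := pr_pos v hv hpos 0 2
      positivity
    · intro i
      have h0 := pr_pos v hv hpos 0 0
      have h1 := pr_pos v hv hpos 0 1
      have h2 := pr_pos v hv hpos 0 2
      fin_cases i <;> simp <;> linarith
  set ρ := K / (1 + K) with hρ
  have hρ0 : 0 ≤ ρ := by positivity
  have hρ1 : ρ < 1 := by
    rw [hρ, div_lt_one (by positivity)]
    linarith
  have hgeo : ∀ n i, pr v n i ≤ K * ρ ^ n := by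
    intro n
    induction n with
    | zero => intro i; simpa using hK i
    | succ n ih =>
      intro i
      have h1 := pr_step v hv hpos n _ ih i
      have hL0 : 0 < K * ρ ^ n := lt_of_lt_of_le (pr_pos v hv hpos n i) (ih i)
      have hLK : K * ρ ^ n ≤ K := by
        have := pow_le_one₀ (n := n) hρ0 hρ1.le
        nlinarith
      have h2 : (K * ρ ^ n) / (1 + K * ρ ^ n) ≤ ρ := by
        rw [hρ, div_le_div_iff₀ (by positivity) (by positivity)]
        nlinarith
      calc _ ≤ (K * ρ ^ n) * (K * ρ ^ n / (1 + K * ρ ^ n)) := h1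
        _ ≤ (K * ρ ^ n) * ρ := mul_le_mul_of_nonneg_left h2 hL0.le
        _ = K * ρ ^ (n + 1) := by rw [pow_succ]; ring
  obtain ⟨n1, hn1⟩ := exists_pow_lt_of_lt_one (show 0 < 1 / (2 * K) by positivity) hρ1
  refine ⟨n1, fun n => ?_⟩
  induction n with
  | zero =>
    intro i
    have h1 := hgeo n1 i
    have h2 : K * ρ ^ n1 ≤ 1 / 2 := by
      have h3 : K * ρ ^ n1 ≤ K * (1 / (2 * K)) := mul_le_mul_of_nonneg_left hn1.le hK0.le
      have h4 : K * (1 / (2 * K)) = 1 / 2 := by field_simp
      rwa [h4] at h3
    simpa using h1.trans h2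
  | succ n ih =>
    intro i
    set L : ℝ := (1 / 2 : ℝ) ^ (2 ^ n) with hL
    have hL0 : 0 < L := by positivity
    have h1 := pr_step v hv hpos (n1 + n) L ih i
    have h2 : L / (1 + L) ≤ L := by
      apply div_le_self hL0.le
      linarith
    have h3 : (1 / 2 : ℝ) ^ (2 ^ (n + 1)) = L * L := by
      rw [hL, ← pow_add]
      congr 1
      ring
    rw [h3, show n1 + (n + 1) = n1 + n + 1 by ring]
    exact h1.trans (mul_le_mul_of_nonneg_left h2 hL0.le)

end small

section asym

variable (v : ℕ → Fin 3 → ℝ) (hv : ∀ n, v (n + 1) = Phi (v n)) (hpos : ∀ n i, 0 < v n i)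
  (δ : ℝ) (hδ : 0 < δ) (hsm : ∀ n i, pr v n i ≤ chi (-δ) n)

include hv hpos hδ hsm

lemma exists_rate (i : Fin 3) : ∃ a : ℝ, ∀ n, |Real.log (v n i) - a * 2 ^ n| ≤ chi (-δ) n := by
  set f : ℕ → ℝ := fun n => Real.log (v n i) / 2 ^ n with hf
  have hchi : ∀ n k, chi (-δ) (n + k) ≤ chi (-δ) n := by
    intro n k
    apply Real.exp_le_exp.2
    have h1 : (2 : ℝ) ^ n ≤ 2 ^ (n + k) := pow_le_pow_right₀ (by norm_num) (by omega)
    nlinarith
  have hstep : ∀ n, dist (f n) (f (n + 1)) ≤ chi (-δ) n / 2 / 2 ^ n := by
    intro n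
    have hp := pr_pos v hv hpos n i
    have h1 : Real.log (v (n + 1) i) = 2 * Real.log (v n i) + Real.log (1 + pr v n i) := by
      rw [v_succ v hv hpos, Real.log_mul (by have := hpos n i; positivity) (by positivity),
        Real.log_pow]
      push_cast
      ring
    have h2 : f n - f (n + 1) = - (Real.log (1 + pr v n i) / 2 / 2 ^ n) := by
      simp only [hf, h1, pow_succ]
      field_simp
      ring
    have h3 : 0 ≤ Real.log (1 + pr v n i) := Real.log_nonneg (by linarith)
    have h4 : Real.log (1 + pr v n i) ≤ pr v n i := by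
      have := Real.log_le_sub_one_of_pos (show 0 < 1 + pr v n i by positivity)
      linarith
    rw [Real.dist_eq, h2, abs_neg, abs_of_nonneg (by positivity)]
    have h5 := h4.trans (hsm n i)
    gcongr
  have hcauchy : CauchySeq f := by
    apply cauchySeq_of_le_geometric_two (C := chi (-δ) 0)
    intro n
    apply (hstep n).trans
    have := hchi 0 n
    rw [zero_add] at this
    gcongr
  obtain ⟨a, ha⟩ := cauchySeq_tendsto_of_complete hcauchy
  refine ⟨a, fun n => ?_⟩
  have hshift : Tendsto (fun k => f (n + k)) atTop (𝓝 a) := by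
    have := (tendsto_add_atTop_iff_nat n).2 ha
    refine this.congr (fun k => ?_)
    rw [add_comm]
  have hd := dist_le_of_le_geometric_two_of_tendsto₀ (f := fun k => f (n + k))
    (C := chi (-δ) n / 2 ^ n) (by
      intro k
      apply (hstep (n + k)).trans
      have := hchi n k
      rw [pow_add]
      have h2 : chi (-δ) n / 2 ^ n / 2 / 2 ^ k = chi (-δ) n / 2 / (2 ^ n * 2 ^ k) := by
        field_simp
      rw [h2]
      gcongr) hshift
  simp only [add_zero] at hd
  rw [Real.dist_eq, le_div_iff₀ (by positivity)] at hd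
  have h1 : |f n - a| * 2 ^ n = |Real.log (v n i) - a * 2 ^ n| := by
    have h2 : (0 : ℝ) < 2 ^ n := by positivity
    rw [← abs_of_pos h2, ← abs_mul, abs_of_pos h2, sub_mul]
    congr 2
    simp only [hf]
    field_simp
  rwa [h1] at hd

lemma chi_le_one (n : ℕ) : chi (-δ) n ≤ 1 := by
  unfold chi
  rw [Real.exp_le_one_iff]
  have : (0 : ℝ) < 2 ^ n := by positivity
  nlinarith

/-- The coordinates have asymptotic expansions. -/
theorem coord_AsE (i : Fin 3) : AsE (fun n => v n i) := by
  choose a ha using exists_rate v hv hpos δ hδ hsm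
  have hchi1 : ∀ n, chi (-δ) n ≤ 1 := chi_le_one v hv hpos δ hδ hsm
  -- the normalised coordinates
  let w : Fin 3 → ℕ → ℝ := fun i n => v n i * chi (-a i) n
  have hw1 : ∀ i n, |w i n - 1| ≤ 2 * chi (-δ) n := by
    intro i n
    have h1 : w i n = Real.exp (Real.log (v n i) - a i * 2 ^ n) := by
      rw [sub_eq_add_neg, Real.exp_add, Real.exp_log (hpos n i)]
      simp only [w, chi, neg_mul]
    rw [h1]
    apply (Real.abs_exp_sub_one_le ((ha i n).trans (hchi1 n))).trans
    exact mul_le_mul_of_nonneg_left (ha i n) (by norm_num)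
  have hell : ∀ i, a (i + 1) - 2 * a i ≤ -δ := by
    intro i
    by_contra hcon
    push Not at hcon
    set γ := a (i + 1) - 2 * a i + δ with hγ
    have hγ0 : 0 < γ := by linarith
    obtain ⟨n, hn⟩ := pow_unbounded_of_one_lt (3 / γ) (by norm_num : (1 : ℝ) < 2)
    have h1 : Real.log (v n (i + 1)) - 2 * Real.log (v n i) ≤ -δ * 2 ^ n := by
      have h2 := hsm n i
      unfold pr at h2
      have h3 : 0 < v n (i + 1) / v n i ^ 2 := by
        have := hpos n i
        have := hpos n (i + 1)
        positivity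
      have h4 := Real.log_le_log h3 h2
      rw [Real.log_div (hpos n (i + 1)).ne' (by have := hpos n i; positivity), Real.log_pow,
        chi, Real.log_exp] at h4
      push_cast at h4
      linarith
    have h2 := abs_le.1 ((ha (i + 1) n).trans (hchi1 n))
    have h3 := abs_le.1 ((ha i n).trans (hchi1 n))
    have h4 : γ * 2 ^ n ≤ 3 := by
      rw [hγ]
      nlinarith
    rw [div_lt_iff₀ hγ0] at hn
    linarith
  have hrec : ∀ i n, w i (n + 1) = w i n ^ 2 + chi (a (i + 1) - 2 * a i) n * w (i + 1) n := by
    intro i n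
    simp only [w]
    rw [hv, Phi_apply, chi_succ]
    have h1 : chi (2 * -a i) n = chi (-a i) n ^ 2 := by
      rw [sq, chi_mul_apply]; congr 1; ring
    have h2 : chi (a (i + 1) - 2 * a i) n * (v n (i + 1) * chi (-a (i + 1)) n)
        = v n (i + 1) * chi (-a i) n ^ 2 := by
      rw [sq, chi_mul_apply]
      rw [show chi (a (i + 1) - 2 * a i) n * (v n (i + 1) * chi (-a (i + 1)) n)
        = v n (i + 1) * (chi (a (i + 1) - 2 * a i) n * chi (-a (i + 1)) n) by ring,
        chi_mul_apply]
      congr 2
      ring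
    rw [h2, h1]
    ring
  -- approximation to all orders
  have happ : ∀ j : ℕ, ∀ i, ∃ e ∈ ExpSum, ∃ K : ℝ, 0 ≤ K ∧
      ∀ n, |w i n - e n| ≤ K * chi (-((j + 1 : ℕ) * δ)) n := by
    intro j
    induction j with
    | zero =>
      intro i
      refine ⟨1, ExpSum_one, 2, by norm_num, fun n => ?_⟩
      simpa using hw1 i n
    | succ j ih =>
      intro i
      obtain ⟨e, he, K, hK, h1⟩ := ih i
      obtain ⟨f, hf, L, hL, h2⟩ := ih (i + 1)
      set R : ℕ → ℝ := fun n => e (n + 1) - chi (a (i + 1) - 2 * a i) n * f n with hR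
      have hRmem : R ∈ ExpSum := by
        have h3 := Submodule.sub_mem _ (ExpSum_shift he)
          (ExpSum_mul (chi_mem (a (i + 1) - 2 * a i)) hf)
        exact h3
      set t : ℝ := ((j + 1 : ℕ) : ℝ) * δ with ht
      have ht0 : δ ≤ t := by
        rw [ht]; push_cast
        have : (0 : ℝ) ≤ j := Nat.cast_nonneg j
        nlinarith
      have htt : ((j + 1 + 1 : ℕ) : ℝ) * δ = t + δ := by
        rw [ht]; push_cast; ring
      refine ⟨e + (1 / 2 : ℝ) • (R - e * e), ?_, K * (2 + K) + (K + L), ?_, fun n => ?_⟩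
      · exact Submodule.add_mem _ he
          (Submodule.smul_mem _ _ (Submodule.sub_mem _ hRmem (ExpSum_mul he he)))
      · have := mul_nonneg hK (show 0 ≤ 2 + K by linarith)
        linarith
      · rw [htt]
        have hc0 : 0 ≤ chi (-δ) n := (chi_pos _ _).le
        -- the value of the square
        have h3 : w i n ^ 2 - R n = (w i (n + 1) - e (n + 1))
            - chi (a (i + 1) - 2 * a i) n * (w (i + 1) n - f n) := by
          rw [hrec i n, hR]; ring
        have h4 : |w i n ^ 2 - R n| ≤ (K + L) * chi (-(t + δ)) n := by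
          rw [h3, add_mul]
          apply (abs_sub _ _).trans
          apply add_le_add
          · apply (h1 (n + 1)).trans
            apply mul_le_mul_of_nonneg_left _ hK
            rw [chi_succ]
            apply chi_mono
            linarith
          · rw [abs_mul, abs_of_pos (chi_pos _ _)]
            calc chi (a (i + 1) - 2 * a i) n * |w (i + 1) n - f n|
                ≤ chi (-δ) n * (L * chi (-t) n) :=
                  mul_le_mul (chi_mono (hell i) n) (h2 n) (abs_nonneg _) hc0
              _ = L * chi (-(t + δ)) n := by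
                  rw [show chi (-δ) n * (L * chi (-t) n) = L * (chi (-δ) n * chi (-t) n) by ring,
                    chi_mul_apply]
                  congr 2
                  ring
        have h5 : w i n - (e + (1 / 2 : ℝ) • (R - e * e)) n
            = (w i n - e n) * (1 - (w i n + e n) / 2) + (w i n ^ 2 - R n) / 2 := by
          simp only [Pi.add_apply, Pi.smul_apply, Pi.sub_apply, Pi.mul_apply, smul_eq_mul]
          ring
        have h6 : |1 - (w i n + e n) / 2| ≤ (2 + K) * chi (-δ) n := by
          have h7 : 1 - (w i n + e n) / 2 = -(w i n - 1) + (w i n - e n) / 2 := by ring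
          rw [h7]
          apply (abs_add_le _ _).trans
          rw [abs_neg, abs_div, add_mul]
          apply add_le_add (hw1 i n)
          have h8 : |w i n - e n| ≤ K * chi (-δ) n :=
            (h1 n).trans (mul_le_mul_of_nonneg_left (chi_mono (by linarith) n) hK)
          have h9 : |(2 : ℝ)| = 2 := abs_two
          rw [h9]
          have h10 : 0 ≤ |w i n - e n| := abs_nonneg _
          linarith
        rw [h5]
        apply (abs_add_le _ _).trans
        rw [add_mul]
        apply add_le_add
        · rw [abs_mul]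
          calc |w i n - e n| * |1 - (w i n + e n) / 2|
              ≤ (K * chi (-t) n) * ((2 + K) * chi (-δ) n) :=
                mul_le_mul (h1 n) h6 (abs_nonneg _) (mul_nonneg hK (chi_pos _ _).le)
            _ = K * (2 + K) * chi (-(t + δ)) n := by
                rw [show (K * chi (-t) n) * ((2 + K) * chi (-δ) n)
                  = K * (2 + K) * (chi (-t) n * chi (-δ) n) by ring, chi_mul_apply]
                congr 2
                ring
        · rw [abs_div, abs_two]
          have := abs_nonneg (w i n ^ 2 - R n)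
          linarith
  have hwAsE : AsE (w i) := by
    intro N
    obtain ⟨j, hj⟩ := exists_nat_ge (N / δ)
    obtain ⟨e, he, K, hK, h1⟩ := happ j i
    refine ⟨e, he, K, hK, fun n => (h1 n).trans ?_⟩
    apply mul_le_mul_of_nonneg_left _ hK
    apply chi_mono
    rw [div_le_iff₀ hδ] at hj
    push_cast
    nlinarith
  have h1 : (fun n => v n i) = chi (a i) * w i := by
    funext n
    simp only [Pi.mul_apply, w]
    rw [show chi (a i) n * (v n i * chi (-a i) n) = v n i * (chi (a i) n * chi (-a i) n) by ring,
      chi_mul_apply, add_neg_cancel, chi_zero, Pi.one_apply, mul_one]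
  rw [h1]
  exact (AsE.of_mem (chi_mem _)).mul hwAsE

lemma eval_AsE (g : MvPolynomial (Fin 3) ℝ) : AsE (fun n => eval (v n) g) := by
  induction g using MvPolynomial.induction_on with
  | C c =>
    have : (fun n => eval (v n) (C c)) = c • (1 : ℕ → ℝ) := by
      funext n; simp
    rw [this]
    exact AsE.of_mem (Submodule.smul_mem _ _ ExpSum_one)
  | add p q h1 h2 =>
    have : (fun n => eval (v n) (p + q)) = (fun n => eval (v n) p) + fun n => eval (v n) q := by
      funext n; simp
    rw [this]
    exact h1.add h2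
  | mul_X p i h =>
    have : (fun n => eval (v n) (p * X i)) = (fun n => eval (v n) p) * fun n => v n i := by
      funext n; simp
    rw [this]
    exact h.mul (coord_AsE v hv hpos δ hδ hsm i)

end asym

end Pool.Agent.MP_e9abfe
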