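import Mathlib
import Pool.Agent.Lib.MP_e9abfe_ag.Esc

set_option autoImplicit false

/-!
Polynomials which are flat along a positive real orbit vanish on the orbit from some point on.
-/

namespace Pool.Agent.MP_e9abfe

open MvPolynomial Filter Topology

lemma Flat.not_ge {u : ℕ → ℝ} (hu : Flat u) (C : ℕ) (c : ℝ) (hc : 0 < c) (n0 : ℕ)
    (h : ∀ n ≥ n0, c * chi (-C) n ≤ |u n|) : False := by
  obtain ⟨K, hK, h1⟩ := hu (C + 1)
  have h2 : Tendsto (fun n => K * chi (-1) n) atTop (𝓝 0) := by
    have := (tendsto_chi_neg (show (-1 : ℝ) < 0 by norm_num)).const_mul K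
    rwa [mul_zero] at this
  obtain ⟨n1, hn1⟩ := eventually_atTop.1 (h2.eventually (gt_mem_nhds hc))
  set n := max n0 n1
  have h3 := hn1 n (le_max_right _ _)
  have h4 := (h n (le_max_left _ _)).trans (h1 n)
  have h5 : chi (-((C + 1 : ℕ) : ℝ)) n = chi (-1) n * chi (-C) n := by
    rw [chi_mul_apply]; congr 1; push_cast; ring
  rw [h5, ← mul_assoc] at h4
  have h6 := le_of_mul_le_mul_right h4 (chi_pos (-C) n)
  linarith

section

variable (v : ℕ → Fin 3 → ℝ) (hv : ∀ n, v (n + 1) = Phi (v n))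
  (hA : ∀ g : MvPolynomial (Fin 3) ℝ, AsE (fun n => eval (v n) g))

/-- The ideal of flat polynomials. -/
def flatIdeal (hA : ∀ g : MvPolynomial (Fin 3) ℝ, AsE (fun n => eval (v n) g)) :
    Ideal (MvPolynomial (Fin 3) ℝ) where
  carrier := {g | Flat (fun n => eval (v n) g)}
  zero_mem' := fun N => ⟨0, le_rfl, fun n => by simp⟩
  add_mem' := by
    intro a b ha hb N
    obtain ⟨K, hK, h1⟩ := ha N
    obtain ⟨L, hL, h2⟩ := hb N
    refine ⟨K + L, add_nonneg hK hL, fun n => ?_⟩
    show |eval (v n) (a + b)| ≤ _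
    rw [map_add, add_mul]
    exact (abs_add_le _ _).trans (add_le_add (h1 n) (h2 n))
  smul_mem' := by
    intro c a ha N
    obtain ⟨C, L, hL, hb⟩ := (hA c).bound
    obtain ⟨K, hK, h1⟩ := ha (N + C)
    refine ⟨L * K, mul_nonneg hL hK, fun n => ?_⟩
    show |eval (v n) (c * a)| ≤ _
    rw [map_mul, abs_mul]
    have h2 : chi C n * chi (-(N + C : ℕ)) n = chi (-N) n := by
      rw [chi_mul_apply]; congr 1; push_cast; ring
    calc |eval (v n) c| * |eval (v n) a| ≤ (L * chi C n) * (K * chi (-(N + C : ℕ)) n) :=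
          mul_le_mul (hb n) (h1 n) (abs_nonneg _) (mul_nonneg hL (chi_pos _ _).le)
      _ = L * K * chi (-N) n := by rw [← h2]; ring

lemma mem_flatIdeal (g : MvPolynomial (Fin 3) ℝ) :
    g ∈ flatIdeal v hA ↔ Flat (fun n => eval (v n) g) := Iff.rfl

lemma lower_of_not_mem (g : MvPolynomial (Fin 3) ℝ) (hg : g ∉ flatIdeal v hA) :
    ∃ (C : ℕ) (c : ℝ), 0 < c ∧ ∃ n0, ∀ n ≥ n0, c * chi (-C) n ≤ |eval (v n) g| := by
  rcases (hA g).dichotomy with h | h
  · exact absurd h hg
  · exact h

lemma flatIdeal_prime : (flatIdeal v hA).IsPrime := by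
  refine ⟨?_, ?_⟩
  · intro h
    have h1 : (1 : MvPolynomial (Fin 3) ℝ) ∈ flatIdeal v hA := by rw [h]; exact Submodule.mem_top
    refine Flat.not_ge h1 0 1 one_pos 0 (fun n _ => ?_)
    simp [chi]
  · intro a b hab
    by_contra hcon
    push Not at hcon
    obtain ⟨C1, c1, hc1, n1, h1⟩ := lower_of_not_mem v hA a hcon.1
    obtain ⟨C2, c2, hc2, n2, h2⟩ := lower_of_not_mem v hA b hcon.2
    refine Flat.not_ge hab (C1 + C2) (c1 * c2) (mul_pos hc1 hc2) (max n1 n2) (fun n hn => ?_)
    have h3 := h1 n (le_trans (le_max_left _ _) hn)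
    have h4 := h2 n (le_trans (le_max_right _ _) hn)
    rw [map_mul, abs_mul]
    have h5 : chi (-((C1 + C2 : ℕ) : ℝ)) n = chi (-C1) n * chi (-C2) n := by
      rw [chi_mul_apply]; congr 1; push_cast; ring
    rw [h5]
    calc c1 * c2 * (chi (-C1) n * chi (-C2) n) = (c1 * chi (-C1) n) * (c2 * chi (-C2) n) := by
          ring
      _ ≤ _ := mul_le_mul h3 h4 (mul_pos hc2 (chi_pos _ _)).le (abs_nonneg _)

include hv

lemma eval_pull (n : ℕ) (g : MvPolynomial (Fin 3) ℝ) :
    eval (v n) (pull ℝ g) = eval (v (n + 1)) g := by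
  have h1 : (eval (v n)).comp ((pull ℝ : MvPolynomial (Fin 3) ℝ →ₐ[ℝ] MvPolynomial (Fin 3) ℝ) :
      MvPolynomial (Fin 3) ℝ →+* MvPolynomial (Fin 3) ℝ) = eval (v (n + 1)) := by
    apply MvPolynomial.ringHom_ext
    · intro r
      simp [pull]
    · intro i
      simp only [RingHom.comp_apply, RingHom.coe_coe, pull_X, eval_X]
      rw [hv, Phi_apply, Phi_apply]
      simp
  exact congrArg (fun f : MvPolynomial (Fin 3) ℝ →+* ℝ => f g) h1

lemma flatIdeal_comap : (flatIdeal v hA).comap (pull ℝ) = flatIdeal v hA := by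
  ext g
  rw [Ideal.mem_comap, mem_flatIdeal, mem_flatIdeal]
  have h1 : (fun n => eval (v n) (pull ℝ g)) = fun n => eval (v (n + 1)) g := by
    funext n; exact eval_pull v hv n g
  rw [h1]
  constructor
  · intro h N
    obtain ⟨K, hK, hb⟩ := h (2 * N)
    refine ⟨K + |eval (v 0) g| * chi N 0, add_nonneg hK
      (mul_nonneg (abs_nonneg _) (chi_pos _ _).le), fun n => ?_⟩
    rw [add_mul]
    have hc : 0 ≤ |eval (v 0) g| * chi N 0 * chi (-N) n :=
      mul_nonneg (mul_nonneg (abs_nonneg _) (chi_pos _ _).le) (chi_pos _ _).le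
    cases n with
    | zero =>
      have h2 : |eval (v 0) g| * chi N 0 * chi (-N) 0 = |eval (v 0) g| := by
        rw [mul_assoc, chi_mul_apply, add_neg_cancel, chi_zero, Pi.one_apply, mul_one]
      have h3 : 0 ≤ K * chi (-N) 0 := mul_nonneg hK (chi_pos _ _).le
      show |eval (v 0) g| ≤ _
      rw [h2]
      linarith
    | succ n =>
      have h2 := hb n
      have h3 : chi (-(2 * N : ℕ)) n ≤ chi (-N) (n + 1) := by
        rw [chi_succ]
        apply chi_mono
        push_cast
        linarith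
      have h4 := mul_le_mul_of_nonneg_left h3 hK
      show |eval (v (n + 1)) g| ≤ _
      have h5 : |eval (v (n + 1)) g| ≤ K * chi (-(2 * N : ℕ)) n := h2
      linarith
  · intro h N
    obtain ⟨K, hK, hb⟩ := h N
    refine ⟨K, hK, fun n => (hb (n + 1)).trans ?_⟩
    apply mul_le_mul_of_nonneg_left _ hK
    rw [chi_succ]
    apply chi_mono
    have : (0 : ℝ) ≤ N := Nat.cast_nonneg N
    linarith

variable (hpos : ∀ n i, 0 < v n i)

include hpos

lemma jac_not_mem : (1 + 8 * (X 0 * X 1 * X 2) : MvPolynomial (Fin 3) ℝ) ∉ flatIdeal v hA := by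
  intro h
  refine Flat.not_ge h 0 1 one_pos 0 (fun n _ => ?_)
  have h8 : eval (v n) (8 : MvPolynomial (Fin 3) ℝ) = 8 := map_ofNat (eval (v n)) 8
  have h1 : eval (v n) (1 + 8 * (X 0 * X 1 * X 2) : MvPolynomial (Fin 3) ℝ)
      = 1 + 8 * (v n 0 * v n 1 * v n 2) := by
    rw [map_add, map_mul, h8]
    simp
  have h0 := hpos n 0
  have h1' := hpos n 1
  have h2 := hpos n 2
  have hprod : 0 < v n 0 * v n 1 * v n 2 := by positivity
  show 1 * chi (-(0 : ℕ)) n ≤ |eval (v n) (1 + 8 * (X 0 * X 1 * X 2) : MvPolynomial (Fin 3) ℝ)|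
  rw [h1, abs_of_pos (by positivity)]
  simp only [chi, CharP.cast_eq_zero, neg_zero, zero_mul, Real.exp_zero, mul_one]
  linarith

/-- Flat polynomials vanish along the orbit from some point on. -/
theorem flat_eventually_zero : ∃ n0, ∀ g ∈ flatIdeal v hA, ∀ n ≥ n0, eval (v n) g = 0 := by
  classical
  have hprime := flatIdeal_prime v hA
  obtain ⟨h, hh, hmul⟩ := etale_lemma ℝ (flatIdeal v hA) (flatIdeal_comap v hv hA)
    (jac_not_mem v hv hA hpos)
  obtain ⟨G, hG⟩ := (IsNoetherian.noetherian (flatIdeal v hA) : (flatIdeal v hA).FG)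
  have hGmem : ∀ g ∈ G, g ∈ flatIdeal v hA := fun g hg => by
    rw [← hG]; exact Submodule.subset_span hg
  -- size of the generators
  let m : ℕ → ℝ := fun n => ∑ g ∈ G, |eval (v n) g|
  have hm0 : ∀ n, 0 ≤ m n := fun n => Finset.sum_nonneg (fun g _ => abs_nonneg _)
  -- every element of the extended ideal is controlled by the next time
  have hctrl : ∀ f ∈ Ideal.map (pull ℝ) (flatIdeal v hA), ∃ (C : ℕ) (K : ℝ), 0 ≤ K ∧
      ∀ n, |eval (v n) f| ≤ K * chi C n * m (n + 1) := by
    have hmap : Ideal.map (pull ℝ) (flatIdeal v hA)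
        = Ideal.span ((pull ℝ) '' (G : Set (MvPolynomial (Fin 3) ℝ))) := by
      rw [← Ideal.map_span]
      congr 1
      exact hG.symm
    intro f hf
    rw [hmap] at hf
    induction hf using Submodule.span_induction with
    | mem x hx =>
      obtain ⟨g, hg, rfl⟩ := hx
      refine ⟨0, 1, zero_le_one, fun n => ?_⟩
      rw [eval_pull v hv]
      have h1 : |eval (v (n + 1)) g| ≤ m (n + 1) :=
        Finset.single_le_sum (f := fun g => |eval (v (n + 1)) g|)
          (fun g _ => abs_nonneg _) hg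
      simpa [chi] using h1
    | zero => exact ⟨0, 0, le_rfl, fun n => by simp⟩
    | add x y _ _ hx hy =>
      obtain ⟨C1, K1, hK1, h1⟩ := hx
      obtain ⟨C2, K2, hK2, h2⟩ := hy
      refine ⟨C1 + C2, K1 + K2, add_nonneg hK1 hK2, fun n => ?_⟩
      have a1 : chi C1 n ≤ chi ((C1 + C2 : ℕ) : ℝ) n := chi_mono (by push_cast; linarith) n
      have a2 : chi C2 n ≤ chi ((C1 + C2 : ℕ) : ℝ) n := chi_mono (by push_cast; linarith) n
      rw [map_add]
      calc _ ≤ |eval (v n) x| + |eval (v n) y| := abs_add_le _ _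
        _ ≤ K1 * chi C1 n * m (n + 1) + K2 * chi C2 n * m (n + 1) := add_le_add (h1 n) (h2 n)
        _ ≤ K1 * chi ((C1 + C2 : ℕ) : ℝ) n * m (n + 1)
            + K2 * chi ((C1 + C2 : ℕ) : ℝ) n * m (n + 1) := by
            apply add_le_add
            · exact mul_le_mul_of_nonneg_right (mul_le_mul_of_nonneg_left a1 hK1) (hm0 _)
            · exact mul_le_mul_of_nonneg_right (mul_le_mul_of_nonneg_left a2 hK2) (hm0 _)
        _ = _ := by ring
    | smul c x _ hx =>
      obtain ⟨C1, K1, hK1, h1⟩ := hx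
      obtain ⟨C2, K2, hK2, h2⟩ := (hA c).bound
      refine ⟨C2 + C1, K2 * K1, mul_nonneg hK2 hK1, fun n => ?_⟩
      rw [smul_eq_mul, map_mul, abs_mul]
      have h3 : chi C2 n * chi C1 n = chi ((C2 + C1 : ℕ) : ℝ) n := by
        rw [chi_mul_apply]; push_cast; rfl
      calc |eval (v n) c| * |eval (v n) x|
          ≤ (K2 * chi C2 n) * (K1 * chi C1 n * m (n + 1)) :=
            mul_le_mul (h2 n) (h1 n) (abs_nonneg _) (mul_nonneg hK2 (chi_pos _ _).le)
        _ = _ := by rw [← h3]; ring
  obtain ⟨C0, c0, hc0, N0, hlow⟩ := lower_of_not_mem v hA h hh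
  -- the basic inequality
  obtain ⟨C, K, hK, hineq⟩ : ∃ (C : ℕ) (K : ℝ), 0 < K ∧
      ∀ n ≥ N0, m n ≤ K * chi C n * m (n + 1) := by
    have hsum : ∃ (C : ℕ) (K : ℝ), 0 ≤ K ∧
        ∀ n, ∑ g ∈ G, |eval (v n) (h * g)| ≤ K * chi C n * m (n + 1) := by
      have : ∀ G' ⊆ G, ∃ (C : ℕ) (K : ℝ), 0 ≤ K ∧
          ∀ n, ∑ g ∈ G', |eval (v n) (h * g)| ≤ K * chi C n * m (n + 1) := by
        intro G'
        induction G' using Finset.induction_on with
        | empty => intro _; exact ⟨0, 0, le_rfl, fun n => by simp⟩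
        | insert g s hgs ih =>
          intro hsub
          obtain ⟨C1, K1, hK1, h1⟩ := ih (fun x hx => hsub (Finset.mem_insert_of_mem hx))
          obtain ⟨C2, K2, hK2, h2⟩ := hctrl (h * g)
            (hmul g (hGmem g (hsub (Finset.mem_insert_self g s))))
          refine ⟨C2 + C1, K2 + K1, add_nonneg hK2 hK1, fun n => ?_⟩
          rw [Finset.sum_insert hgs]
          have a1 : chi C1 n ≤ chi ((C2 + C1 : ℕ) : ℝ) n := chi_mono (by push_cast; linarith) n
          have a2 : chi C2 n ≤ chi ((C2 + C1 : ℕ) : ℝ) n := chi_mono (by push_cast; linarith) n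
          calc _ ≤ K2 * chi C2 n * m (n + 1) + K1 * chi C1 n * m (n + 1) :=
                add_le_add (h2 n) (h1 n)
            _ ≤ K2 * chi ((C2 + C1 : ℕ) : ℝ) n * m (n + 1)
                + K1 * chi ((C2 + C1 : ℕ) : ℝ) n * m (n + 1) := by
                apply add_le_add
                · exact mul_le_mul_of_nonneg_right (mul_le_mul_of_nonneg_left a2 hK2) (hm0 _)
                · exact mul_le_mul_of_nonneg_right (mul_le_mul_of_nonneg_left a1 hK1) (hm0 _)
            _ = _ := by ring
      exact this G (Finset.Subset.refl G)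
    obtain ⟨C, K, hK, h1⟩ := hsum
    refine ⟨C0 + C, (K + 1) / c0, by positivity, fun n hn => ?_⟩
    have h2 : |eval (v n) h| * m n ≤ K * chi C n * m (n + 1) := by
      have h3 := h1 n
      simp only [map_mul, abs_mul] at h3
      rwa [← Finset.mul_sum] at h3
    have h3 : c0 * chi (-C0) n * m n ≤ (K + 1) * chi C n * m (n + 1) := by
      calc c0 * chi (-C0) n * m n ≤ |eval (v n) h| * m n :=
            mul_le_mul_of_nonneg_right (hlow n hn) (hm0 n)
        _ ≤ K * chi C n * m (n + 1) := h2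
        _ ≤ (K + 1) * chi C n * m (n + 1) := by
            apply mul_le_mul_of_nonneg_right _ (hm0 _)
            apply mul_le_mul_of_nonneg_right _ (chi_pos _ _).le
            linarith
    have h4 : chi (-C0) n * chi C0 n = 1 := by
      rw [chi_mul_apply, neg_add_cancel, chi_zero, Pi.one_apply]
    have h5 : chi ((C0 + C : ℕ) : ℝ) n = chi C0 n * chi C n := by
      rw [chi_mul_apply]; push_cast; rfl
    have h6 : m n = (c0 * chi (-C0) n * m n) * (chi C0 n / c0) := by
      have : (c0 * chi (-C0) n * m n) * (chi C0 n / c0)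
          = (chi (-C0) n * chi C0 n) * m n := by field_simp
      rw [this, h4, one_mul]
    rw [h6, h5]
    calc (c0 * chi (-C0) n * m n) * (chi C0 n / c0)
        ≤ ((K + 1) * chi C n * m (n + 1)) * (chi C0 n / c0) :=
          mul_le_mul_of_nonneg_right h3 (by have := chi_pos (C0 : ℝ) n; positivity)
      _ = _ := by field_simp
  -- the generators vanish from `N0` on
  have hmzero : ∀ n ≥ N0, m n = 0 := by
    intro n1 hn1
    by_contra hne
    have hpos1 : 0 < m n1 := lt_of_le_of_ne (hm0 n1) (Ne.symm hne)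
    -- absorb the constant `K` into the exponential
    obtain ⟨C', hC'⟩ : ∃ C' : ℕ, ∀ n, K * chi C n ≤ chi C' n := by
      obtain ⟨B, hB⟩ := exists_nat_ge (Real.log K)
      refine ⟨B + C, fun n => ?_⟩
      have h1 : K ≤ chi B n := by
        rw [← Real.exp_log hK]
        apply Real.exp_le_exp.2
        have h2 : (1 : ℝ) ≤ 2 ^ n := one_le_pow₀ (by norm_num)
        have h3 : (0 : ℝ) ≤ B := Nat.cast_nonneg B
        calc Real.log K ≤ B := hB
          _ ≤ B * 2 ^ n := by nlinarith
      calc K * chi C n ≤ chi B n * chi C n := mul_le_mul_of_nonneg_right h1 (chi_pos _ _).le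
        _ = _ := by rw [chi_mul_apply]; push_cast; rfl
    have hchain : ∀ n, m n1 * chi (-C') (n1 + n) ≤ m (n1 + n) := by
      intro n
      induction n with
      | zero =>
        rw [add_zero]
        have h1 : chi (-C') n1 ≤ 1 := by
          unfold chi
          rw [Real.exp_le_one_iff]
          have h2 : (0 : ℝ) ≤ 2 ^ n1 := by positivity
          have h3 : (0 : ℝ) ≤ C' := Nat.cast_nonneg C'
          nlinarith
        calc m n1 * chi (-C') n1 ≤ m n1 * 1 := mul_le_mul_of_nonneg_left h1 hpos1.le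
          _ = m n1 := mul_one _
      | succ n ih =>
        have h1 := hineq (n1 + n) (by omega)
        have h2 : m (n1 + n) ≤ chi C' (n1 + n) * m (n1 + n + 1) :=
          h1.trans (mul_le_mul_of_nonneg_right (hC' _) (hm0 _))
        have h3 := ih.trans h2
        have h4 : chi (-C') (n1 + (n + 1)) = chi (-C') (n1 + n) * chi (-C') (n1 + n) := by
          rw [show n1 + (n + 1) = (n1 + n) + 1 by ring, chi_succ, chi_mul_apply]
          congr 1
          ring
        have h5 : chi (-C') (n1 + n) * chi C' (n1 + n) = 1 := by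
          rw [chi_mul_apply, neg_add_cancel, chi_zero, Pi.one_apply]
        have h6 := mul_le_mul_of_nonneg_right h3 (chi_pos (-C') (n1 + n)).le
        rw [h4, show n1 + (n + 1) = n1 + n + 1 by ring]
        calc m n1 * (chi (-C') (n1 + n) * chi (-C') (n1 + n))
            = m n1 * chi (-C') (n1 + n) * chi (-C') (n1 + n) := by ring
          _ ≤ chi C' (n1 + n) * m (n1 + n + 1) * chi (-C') (n1 + n) := h6
          _ = (chi (-C') (n1 + n) * chi C' (n1 + n)) * m (n1 + n + 1) := by ring
          _ = m (n1 + n + 1) := by rw [h5, one_mul]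
    -- but `m` is flat
    have hflat : Flat m := by
      intro N
      have : ∀ G' ⊆ G, ∃ K : ℝ, 0 ≤ K ∧ ∀ n, ∑ g ∈ G', |eval (v n) g| ≤ K * chi (-N) n := by
        intro G'
        induction G' using Finset.induction_on with
        | empty => intro _; exact ⟨0, le_rfl, fun n => by simp⟩
        | insert g s hgs ih =>
          intro hsub
          obtain ⟨K1, hK1, h1⟩ := ih (fun x hx => hsub (Finset.mem_insert_of_mem hx))
          obtain ⟨K2, hK2, h2⟩ := hGmem g (hsub (Finset.mem_insert_self g s)) N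
          refine ⟨K2 + K1, add_nonneg hK2 hK1, fun n => ?_⟩
          rw [Finset.sum_insert hgs, add_mul]
          exact add_le_add (h2 n) (h1 n)
      obtain ⟨K1, hK1, h1⟩ := this G (Finset.Subset.refl G)
      exact ⟨K1, hK1, fun n => by rw [abs_of_nonneg (hm0 n)]; exact h1 n⟩
    refine hflat.not_ge C' (m n1) hpos1 n1 (fun n hn => ?_)
    obtain ⟨d, rfl⟩ := Nat.exists_eq_add_of_le hn
    rw [abs_of_nonneg (hm0 _)]
    exact hchain d
  refine ⟨N0, fun g hg n hn => ?_⟩
  have h1 : ∀ g' ∈ G, eval (v n) g' = 0 := by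
    intro g' hg'
    have h2 := (Finset.sum_eq_zero_iff_of_nonneg (fun g _ => abs_nonneg (eval (v n) g))).1
      (hmzero n hn) g' hg'
    exact abs_eq_zero.1 h2
  rw [← hG] at hg
  induction hg using Submodule.span_induction with
  | mem x hx => exact h1 x hx
  | zero => simp
  | add x y _ _ hx hy => rw [map_add, hx, hy, add_zero]
  | smul c x _ hx => rw [smul_eq_mul, map_mul, hx, mul_zero]

end

/-- **Escaping orbits.** Along a real orbit with positive coordinates, all polynomials with
infinitely many zeros on the orbit vanish on the orbit from some point on. -/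
theorem escaping (v0 : Fin 3 → ℝ) (h0 : ∀ i, 0 < v0 i) :
    ∃ n0, ∀ g : MvPolynomial (Fin 3) ℝ, {n | eval (Phi^[n] v0) g = 0}.Infinite →
      ∀ n ≥ n0, eval (Phi^[n] v0) g = 0 := by
  let u : ℕ → Fin 3 → ℝ := fun n => Phi^[n] v0
  have hu : ∀ n, u (n + 1) = Phi (u n) := fun n => Function.iterate_succ_apply' Phi n v0
  have hupos : ∀ n i, 0 < u n i := pos_all u hu h0
  obtain ⟨n1, hn1⟩ := small_exists u hu hupos
  let v : ℕ → Fin 3 → ℝ := fun n => u (n1 + n)
  have hv : ∀ n, v (n + 1) = Phi (v n) := fun n => hu (n1 + n)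
  have hvpos : ∀ n i, 0 < v n i := fun n i => hupos _ i
  have hsm : ∀ n i, pr v n i ≤ chi (-Real.log 2) n := by
    intro n i
    have h1 : pr v n i = pr u (n1 + n) i := rfl
    have h2 : chi (-Real.log 2) n = (1 / 2 : ℝ) ^ (2 ^ n) := by
      have h3 : -Real.log 2 * 2 ^ n = ((2 ^ n : ℕ) : ℝ) * Real.log (1 / 2) := by
        rw [one_div, Real.log_inv]
        push_cast
        ring
      unfold chi
      rw [h3, Real.exp_nat_mul, Real.exp_log (by norm_num)]
    rw [h1, h2]
    exact hn1 n i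
  have hA := eval_AsE v hv hvpos (Real.log 2) (Real.log_pos (by norm_num)) hsm
  obtain ⟨n0, hn0⟩ := flat_eventually_zero v hv hA hvpos
  refine ⟨n1 + n0, fun g hinf n hn => ?_⟩
  have hmem : g ∈ flatIdeal v hA := by
    by_contra hcon
    obtain ⟨C, c, hc, N, hN⟩ := lower_of_not_mem v hA g hcon
    apply hinf
    apply (Set.finite_Iio (n1 + N)).subset
    intro k hk
    rw [Set.mem_Iio]
    by_contra hle
    push Not at hle
    obtain ⟨d, rfl⟩ := Nat.exists_eq_add_of_le hle
    have h1 := hN (N + d) (by omega)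
    have h2 : eval (v (N + d)) g = 0 := by
      have h3 : eval (Phi^[n1 + N + d] v0) g = 0 := hk
      have h4 : v (N + d) = Phi^[n1 + N + d] v0 := by
        show Phi^[n1 + (N + d)] v0 = _
        rw [add_assoc]
      rw [h4]; exact h3
    rw [h2, abs_zero] at h1
    have := mul_pos hc (chi_pos (-C) (N + d))
    linarith
  obtain ⟨d, rfl⟩ := Nat.exists_eq_add_of_le hn
  have h1 := hn0 g hmem (n0 + d) (by omega)
  have h2 : v (n0 + d) = Phi^[n1 + n0 + d] v0 := by
    show Phi^[n1 + (n0 + d)] v0 = _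
    rw [add_assoc]
  rwa [h2] at h1

end Pool.Agent.MP_e9abfe
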