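import Mathlib

set_option autoImplicit false

/-!
Given a Noetherian subring `A` of `ℂ` and a maximal ideal `𝔭` of residue characteristic `p`, we
construct a Noetherian overring `D ⊆ ℂ` in which `p` is not invertible, all integers prime to `p`
are invertible and a power of `𝔭` becomes divisible by `p ^ 4`.
-/

namespace Pool.Agent.MP_e9abfe

open IsLocalRing

/-- A Noetherian local domain in which all nonzero primes contain `a` has a power of the maximal
ideal inside `(a)`. -/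
lemma exists_pow_le_span {B : Type*} [CommRing B] [IsDomain B] [IsNoetherianRing B]
    [IsLocalRing B] (a : B) (ha0 : a ≠ 0)
    (h : ∀ P : Ideal B, P.IsPrime → P ≠ ⊥ → a ∈ P) :
    ∃ j : ℕ, maximalIdeal B ^ j ≤ Ideal.span {a} := by
  apply Ideal.exists_pow_le_of_le_radical_of_fg _ (IsNoetherian.noetherian _)
  rw [Ideal.radical_eq_sInf]
  apply le_sInf
  rintro P ⟨haP, hP⟩
  by_contra hPm
  have hPne : P ≠ maximalIdeal B := fun h' => hPm h'.ge
  have hPle : P ≤ maximalIdeal B := le_maximalIdeal hP.ne_top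
  have hPlt : P < maximalIdeal B := lt_of_le_of_ne hPle hPne
  obtain ⟨P0, hP0, hP0P⟩ := Ideal.exists_minimalPrimes_le haP
  have hfin := Ideal.finite_minimalPrimes_of_isNoetherianRing B (Ideal.span {a})
  have hnot : ¬ ((maximalIdeal B : Set B) ⊆ ⋃ Q ∈ (Ideal.span {a}).minimalPrimes, (Q : Set B)) := by
    intro hsub
    have h1 := (Ideal.subset_union_prime_finite hfin (f := fun Q : Ideal B => Q) ⊥ ⊥
      (fun Q hQ _ _ => hQ.1.1)).1 hsub
    obtain ⟨Q, hQ, hmQ⟩ := h1
    have hQm : Q = maximalIdeal B := le_antisymm (le_maximalIdeal hQ.1.1.ne_top) hmQ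
    have h2 : P0 ≤ Q := by rw [hQm]; exact hP0P.trans hPle
    have h3 : Q ≤ P0 := hQ.2 hP0.1 h2
    have h4 : Q ≤ P := h3.trans hP0P
    rw [hQm] at h4
    exact hPm h4
  obtain ⟨x, hxm, hx⟩ := Set.not_subset.1 hnot
  simp only [Set.mem_iUnion, not_exists] at hx
  have hxP0 : x ∉ P0 := fun h' => hx P0 hP0 h'
  have hx0 : x ≠ 0 := fun h' => hxP0 (h' ▸ P0.zero_mem)
  have hxle : Ideal.span {x} ≤ maximalIdeal B := by
    rw [Ideal.span_singleton_le_iff_mem]
    exact hxm
  obtain ⟨P', hP', -⟩ := Ideal.exists_minimalPrimes_le hxle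
  have hxP' : x ∈ P' := hP'.1.2 (Ideal.mem_span_singleton_self x)
  have hP'ne : P' ≠ ⊥ := by
    intro h'
    rw [h'] at hxP'
    exact hx0 hxP'
  have haP' : a ∈ P' := h P' hP'.1.1 hP'ne
  have hP'prime : P'.IsPrime := hP'.1.1
  obtain ⟨Q, hQ, hQP'⟩ := Ideal.exists_minimalPrimes_le
    (show Ideal.span {a} ≤ P' by rw [Ideal.span_singleton_le_iff_mem]; exact haP')
  have hQprime : Q.IsPrime := hQ.1.1
  have hQne : Q ≠ P' := fun h' => hx Q hQ (h' ▸ hxP')
  have hQlt : Q < P' := lt_of_le_of_ne hQP' hQne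
  have haQ : a ∈ Q := hQ.1.2 (Ideal.mem_span_singleton_self a)
  have hbotlt : (⊥ : Ideal B) < Q := by
    rw [bot_lt_iff_ne_bot]
    intro h'
    rw [h'] at haQ
    exact ha0 haQ
  have hht := Ideal.height_le_one_of_isPrincipal_of_mem_minimalPrimes (Ideal.span {x}) P' hP'
  have hbot : (⊥ : Ideal B).IsPrime := Ideal.isPrime_bot
  have h1 := Ideal.height_strict_mono_of_isPrime_of_isPrime hQlt
  have h2 := Ideal.height_strict_mono_of_isPrime_of_isPrime hbotlt
  have h3 : Q.height < 1 := lt_of_lt_of_le h1 hht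
  have h4 : Q.height = 0 := by
    rwa [Order.lt_one_iff] at h3
  rw [h4] at h2
  exact not_lt_bot h2

/-- In a Noetherian local domain `B` with `a ≠ 0` there is a prime `𝔯` not containing `a`
such that a power of `𝔪` lies in `𝔯 + (a)`. -/
lemma exists_prime_curve {B : Type*} [CommRing B] [IsDomain B] [IsNoetherianRing B]
    [IsLocalRing B] (a : B) (ha0 : a ≠ 0) :
    ∃ 𝔯 : Ideal B, 𝔯.IsPrime ∧ a ∉ 𝔯 ∧ ∃ j : ℕ, maximalIdeal B ^ j ≤ Ideal.span {a} ⊔ 𝔯 := by
  have hne : {P : Ideal B | P.IsPrime ∧ a ∉ P}.Nonempty :=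
    ⟨⊥, Ideal.isPrime_bot, fun h => ha0 h⟩
  obtain ⟨𝔯, ⟨h𝔯, ha𝔯⟩, hmax⟩ := set_has_maximal_iff_noetherian.2
    (inferInstance : IsNoetherian B B) _ hne
  refine ⟨𝔯, h𝔯, ha𝔯, ?_⟩
  have hnt : Nontrivial (B ⧸ 𝔯) := Ideal.Quotient.nontrivial_iff.2 h𝔯.ne_top
  have hloc : IsLocalRing (B ⧸ 𝔯) :=
    IsLocalRing.of_surjective' (Ideal.Quotient.mk 𝔯) Ideal.Quotient.mk_surjective
  have hmapmem : ∀ x ∈ maximalIdeal B, Ideal.Quotient.mk 𝔯 x ∈ maximalIdeal (B ⧸ 𝔯) := by
    intro x hx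
    have hle : 𝔯 ≤ maximalIdeal B := le_maximalIdeal h𝔯.ne_top
    rw [mem_maximalIdeal, mem_nonunits_iff]
    intro hu
    obtain ⟨y, hy⟩ := hu.exists_right_inv
    obtain ⟨z, rfl⟩ := Ideal.Quotient.mk_surjective y
    rw [← map_mul, ← map_one (Ideal.Quotient.mk 𝔯), Ideal.Quotient.eq] at hy
    have h1 : x * z ∈ maximalIdeal B := Ideal.mul_mem_right _ _ hx
    have h2 := Ideal.sub_mem _ h1 (hle hy)
    rw [sub_sub_cancel] at h2
    exact (Ideal.ne_top_iff_one _).1 (maximalIdeal.isMaximal B).ne_top h2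
  obtain ⟨j, hj⟩ := exists_pow_le_span (Ideal.Quotient.mk 𝔯 a)
    (fun h => ha𝔯 (Ideal.Quotient.eq_zero_iff_mem.1 h)) (by
      intro P hP hPne
      by_contra haP
      have hlt : 𝔯 < P.comap (Ideal.Quotient.mk 𝔯) := by
        apply lt_of_le_of_ne
        · intro x hx
          rw [Ideal.mem_comap, Ideal.Quotient.eq_zero_iff_mem.2 hx]
          exact P.zero_mem
        · intro heq
          apply hPne
          rw [eq_bot_iff]
          intro y hy
          obtain ⟨x, rfl⟩ := Ideal.Quotient.mk_surjective y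
          have : x ∈ 𝔯 := by rw [heq]; exact hy
          rw [Ideal.Quotient.eq_zero_iff_mem.2 this]
          exact Ideal.zero_mem _
      exact hmax _ ⟨hP.comap _, fun h => haP h⟩ hlt)
  refine ⟨j, ?_⟩
  have h1 : (maximalIdeal B).map (Ideal.Quotient.mk 𝔯) ≤ maximalIdeal (B ⧸ 𝔯) := by
    rw [Ideal.map_le_iff_le_comap]
    intro x hx
    exact hmapmem x hx
  have h2 : (maximalIdeal B ^ j).map (Ideal.Quotient.mk 𝔯) ≤
      (Ideal.span {a}).map (Ideal.Quotient.mk 𝔯) := by
    rw [Ideal.map_pow, Ideal.map_span, Set.image_singleton]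
    exact (Ideal.pow_right_mono h1 j).trans hj
  rw [Ideal.map_le_iff_le_comap, Ideal.comap_map_of_surjective _ Ideal.Quotient.mk_surjective,
    ← RingHom.ker_eq_comap_bot, Ideal.mk_ker] at h2
  exact h2

/-- Krull separation for finitely generated submodules of `ℂ` over a Noetherian subring. -/
lemma separated {D : Type} [CommRing D] [IsDomain D] [IsNoetherianRing D] [Algebra D ℂ]
    (hinj : Function.Injective (algebraMap D ℂ)) (π : D) (hπ : ¬ IsUnit π)
    (M : Submodule D ℂ) (hM : M.FG) (x : ℂ) (hx : ∀ k : ℕ, ∃ y ∈ M, x = π ^ k • y) : x = 0 := by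
  have hfin : Module.Finite D M := Module.Finite.iff_fg.2 hM
  have hsmul : FaithfulSMul D ℂ := (faithfulSMul_iff_algebraMap_injective D ℂ).2 hinj
  have htf : Module.IsTorsionFree D ℂ := inferInstance
  have htf' : Module.IsTorsionFree D M := inferInstance
  have hne : Ideal.span {π} ≠ ⊤ := by
    intro h
    rw [Ideal.span_singleton_eq_top] at h
    exact hπ h
  have hbot := Ideal.iInf_pow_smul_eq_bot_of_isTorsionFree (R := D) (M := M)
    (I := Ideal.span {π}) hne
  obtain ⟨y0, hy0, hxy0⟩ := hx 0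
  have hxM : x ∈ M := by
    rw [hxy0, pow_zero, one_smul]
    exact hy0
  have h1 : (⟨x, hxM⟩ : M) ∈ (⨅ i : ℕ, Ideal.span {π} ^ i • ⊤ : Submodule D M) := by
    rw [Submodule.mem_iInf]
    intro k
    obtain ⟨y, hy, hxy⟩ := hx k
    have h2 : (⟨x, hxM⟩ : M) = π ^ k • (⟨y, hy⟩ : M) := Subtype.ext hxy
    rw [h2]
    apply Submodule.smul_mem_smul _ Submodule.mem_top
    exact Ideal.pow_mem_pow (Ideal.mem_span_singleton_self _) k
  rw [hbot, Submodule.mem_bot] at h1
  exact congrArg Subtype.val h1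

/-- The overring `D`. -/
theorem exists_ringD {A : Type} [CommRing A] [IsNoetherianRing A] [Algebra A ℂ]
    (hinj : Function.Injective (algebraMap A ℂ)) (𝔭 : Ideal A) [h𝔭 : 𝔭.IsPrime] (p : ℕ)
    (hp : p.Prime) (hp𝔭 : (p : A) ∈ 𝔭) :
    ∃ (D : Type) (_ : CommRing D) (_ : Algebra D ℂ) (ψ : A →+* D),
      (∀ a, algebraMap D ℂ (ψ a) = algebraMap A ℂ a) ∧
      (∀ m : ℕ, m.Coprime p → IsUnit (m : D)) ∧
      (∀ M : Submodule D ℂ, M.FG →
        ∀ x : ℂ, (∀ k : ℕ, ∃ y ∈ M, x = (p : D) ^ k • y) → x = 0) ∧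
      ∃ J : ℕ, ∀ a ∈ 𝔭 ^ J, (p : D) ^ 4 ∣ ψ a := by
  have hdomA : IsDomain A := hinj.isDomain _
  let B := Localization.AtPrime 𝔭
  have hBdom : IsDomain B := IsLocalization.isDomain_localization
    (Ideal.primeCompl_le_nonZeroDivisors 𝔭)
  have hBnoeth : IsNoetherianRing B := IsLocalization.isNoetherianRing 𝔭.primeCompl B inferInstance
  have hg : ∀ y : 𝔭.primeCompl, IsUnit (algebraMap A ℂ y) := by
    intro y
    rw [isUnit_iff_ne_zero]
    intro h
    have h1 : (y : A) = 0 := hinj (by rw [h, map_zero])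
    exact y.2 (by rw [h1]; exact 𝔭.zero_mem)
  let ι : B →+* ℂ := IsLocalization.lift (M := 𝔭.primeCompl) (S := B) hg
  have hιA : ∀ a, ι (algebraMap A B a) = algebraMap A ℂ a := fun a => IsLocalization.lift_eq hg a
  have hιinj : Function.Injective ι := by
    rw [injective_iff_map_eq_zero]
    intro b hb
    obtain ⟨x, s, rfl⟩ := IsLocalization.exists_mk'_eq 𝔭.primeCompl b
    rw [IsLocalization.lift_mk'] at hb
    have h1 : algebraMap A ℂ x = 0 := by
      rcases mul_eq_zero.1 hb with h | h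
      · exact h
      · exact absurd h (Units.ne_zero _)
    have h2 : x = 0 := hinj (by rw [h1, map_zero])
    rw [h2, IsLocalization.mk'_zero]
  let algB : Algebra B ℂ := ι.toAlgebra
  have hιp : ι (p : B) = (p : ℂ) := map_natCast ι p
  have halgB : ∀ b, algebraMap B ℂ b = ι b := fun b => rfl
  have hpm : (p : B) ∈ maximalIdeal B := by
    have h1 : algebraMap A B (p : A) ∈ maximalIdeal B := by
      rw [IsLocalization.AtPrime.to_map_mem_maximal_iff B 𝔭]
      exact hp𝔭
    simpa using h1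
  have hpC : (p : ℂ) ≠ 0 := by exact_mod_cast hp.ne_zero
  have hp0 : (p : B) ≠ 0 := by
    intro h
    apply hpC
    have := congrArg ι h
    simpa using this
  obtain ⟨𝔯, h𝔯, hp𝔯, j, hj⟩ := exists_prime_curve (p : B) hp0
  obtain ⟨G, hG⟩ := (IsNoetherian.noetherian (maximalIdeal B ^ j) : (maximalIdeal B ^ j).FG)
  classical
  let G' : Finset ℂ := G.image (fun g => ι g / (p : ℂ))
  let D : Subalgebra B ℂ := Algebra.adjoin B (G' : Set ℂ)
  have hft : Algebra.FiniteType B D := by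
    rw [← Subalgebra.fg_iff_finiteType]
    exact ⟨G', rfl⟩
  have hDnoeth : IsNoetherianRing D := Algebra.FiniteType.isNoetherianRing B D
  -- the description of the elements of `D`
  have hD : ∀ z ∈ D, ∃ (n : ℕ) (c : B), ∃ r ∈ 𝔯, (p : ℂ) ^ n * z = ι ((p : B) ^ n * c + r) := by
    intro z hz
    induction hz using Algebra.adjoin_induction with
    | mem z hz =>
      rw [Finset.mem_coe, Finset.mem_image] at hz
      obtain ⟨g, hgG, rfl⟩ := hz
      have h1 : g ∈ maximalIdeal B ^ j := by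
        rw [← hG]
        exact Submodule.subset_span hgG
      have h2 := hj h1
      rw [Ideal.mem_span_singleton_sup] at h2
      obtain ⟨c, r, hr, hcr⟩ := h2
      refine ⟨1, c, r, hr, ?_⟩
      rw [pow_one, pow_one, mul_comm (p : B) c, hcr, mul_div_cancel₀ _ hpC]
    | algebraMap b => exact ⟨0, b, 0, 𝔯.zero_mem, by simp [halgB]⟩
    | add x y _ _ hx hy =>
      obtain ⟨n1, c1, r1, hr1, h1⟩ := hx
      obtain ⟨n2, c2, r2, hr2, h2⟩ := hy
      refine ⟨n1 + n2, c1 + c2, (p : B) ^ n2 * r1 + (p : B) ^ n1 * r2,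
        𝔯.add_mem (𝔯.mul_mem_left _ hr1) (𝔯.mul_mem_left _ hr2), ?_⟩
      have h3 : (p : ℂ) ^ (n1 + n2) * (x + y)
          = (p : ℂ) ^ n2 * ((p : ℂ) ^ n1 * x) + (p : ℂ) ^ n1 * ((p : ℂ) ^ n2 * y) := by
        rw [pow_add]; ring
      rw [h3, h1, h2]
      simp only [map_add, map_mul, map_pow, hιp, pow_add]
      ring
    | mul x y _ _ hx hy =>
      obtain ⟨n1, c1, r1, hr1, h1⟩ := hx
      obtain ⟨n2, c2, r2, hr2, h2⟩ := hy
      refine ⟨n1 + n2, c1 * c2, (p : B) ^ n1 * c1 * r2 + (p : B) ^ n2 * c2 * r1 + r1 * r2,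
        𝔯.add_mem (𝔯.add_mem (𝔯.mul_mem_left _ hr2) (𝔯.mul_mem_left _ hr1))
          (𝔯.mul_mem_left _ hr2), ?_⟩
      have h3 : (p : ℂ) ^ (n1 + n2) * (x * y)
          = ((p : ℂ) ^ n1 * x) * ((p : ℂ) ^ n2 * y) := by
        rw [pow_add]; ring
      rw [h3, h1, h2, ← map_mul]
      congr 1
      rw [pow_add]
      ring
  have hnotunit : ∀ d : D, (p : D) * d ≠ 1 := by
    rintro ⟨z, hz⟩ h
    have h1 : (p : ℂ) * z = 1 := by
      have := congrArg (Subtype.val : D → ℂ) h
      simpa using this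
    obtain ⟨n, c, r, hr, h2⟩ := hD z hz
    have h3 : ι ((p : B) ^ n) = ι ((p : B) * ((p : B) ^ n * c + r)) := by
      rw [map_mul, ← h2, map_pow, map_natCast]
      linear_combination (-(p : ℂ) ^ n) * h1
    have h4 := hιinj h3
    have h5 : (1 - (p : B) * c) * (p : B) ^ n ∈ 𝔯 := by
      have h6 : (1 - (p : B) * c) * (p : B) ^ n = (p : B) * r := by
        linear_combination h4
      rw [h6]
      exact 𝔯.mul_mem_left _ hr
    rcases h𝔯.mem_or_mem h5 with h6 | h6
    · have h7 : 𝔯 ≤ maximalIdeal B := le_maximalIdeal h𝔯.ne_top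
      have h8 : (1 - (p : B) * c) + (p : B) * c ∈ maximalIdeal B :=
        Ideal.add_mem _ (h7 h6) (Ideal.mul_mem_right _ _ hpm)
      rw [sub_add_cancel] at h8
      exact (Ideal.ne_top_iff_one _).1 (maximalIdeal.isMaximal B).ne_top h8
    · exact hp𝔯 (h𝔯.mem_of_pow_mem _ h6)
  -- divisibility
  have hdiv : ∀ b ∈ maximalIdeal B ^ j, ∃ d : D, ι b = (p : ℂ) * (d : ℂ) := by
    intro b hb
    rw [← hG] at hb
    induction hb using Submodule.span_induction with
    | mem g hgG =>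
      refine ⟨⟨ι g / (p : ℂ), Algebra.subset_adjoin ?_⟩, ?_⟩
      · rw [Finset.mem_coe]
        exact Finset.mem_image_of_mem _ hgG
      · rw [mul_div_cancel₀ _ hpC]
    | zero => exact ⟨0, by simp⟩
    | add x y _ _ hx hy =>
      obtain ⟨d, hd⟩ := hx
      obtain ⟨e, he⟩ := hy
      exact ⟨d + e, by rw [map_add, hd, he]; push_cast; ring⟩
    | smul c x _ hx =>
      obtain ⟨d, hd⟩ := hx
      refine ⟨algebraMap B D c * d, ?_⟩
      rw [smul_eq_mul, map_mul, hd]
      have : ((algebraMap B D c : D) : ℂ) = ι c := rfl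
      rw [MulMemClass.coe_mul, this]
      ring
  let ψ : A →+* D := (algebraMap B D).comp (algebraMap A B)
  have hψ : ∀ a, ((ψ a : D) : ℂ) = algebraMap A ℂ a := fun a => hιA a
  have hψdiv : (𝔭 ^ j).map ψ ≤ Ideal.span {(p : D)} := by
    rw [Ideal.map_le_iff_le_comap]
    intro a ha
    rw [Ideal.mem_comap, Ideal.mem_span_singleton]
    have h1 : algebraMap A B a ∈ maximalIdeal B ^ j := by
      have h2 : (𝔭 ^ j).map (algebraMap A B) ≤ maximalIdeal B ^ j := by
        rw [Ideal.map_pow]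
        apply Ideal.pow_right_mono
        rw [Localization.AtPrime.map_eq_maximalIdeal]
      exact h2 (Ideal.mem_map_of_mem _ ha)
    obtain ⟨d, hd⟩ := hdiv _ h1
    refine ⟨d, ?_⟩
    apply Subtype.ext
    rw [hψ, ← hιA, hd]
    push_cast
    rfl
  refine ⟨D, inferInstance, inferInstance, ψ, hψ, ?_, ?_, j * 4, ?_⟩
  · intro m hm
    have h1 : IsUnit (m : B) := by
      by_contra h
      have h2 : (m : B) ∈ maximalIdeal B := h
      have h3 : IsCoprime (m : ℤ) (p : ℤ) := Nat.isCoprime_iff_coprime.2 hm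
      obtain ⟨u, v, huv⟩ := h3
      have h4 : (u : B) * (m : B) + (v : B) * (p : B) = 1 := by
        have := congrArg (fun t : ℤ => (t : B)) huv
        simpa using this
      have h5 : (u : B) * (m : B) + (v : B) * (p : B) ∈ maximalIdeal B :=
        Ideal.add_mem _ (Ideal.mul_mem_left _ _ h2) (Ideal.mul_mem_left _ _ hpm)
      rw [h4] at h5
      exact (Ideal.ne_top_iff_one _).1 (maximalIdeal.isMaximal B).ne_top h5
    have h2 := h1.map (algebraMap B D)
    simpa using h2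
  · refine separated (D := D) Subtype.val_injective (p : D) ?_
    intro h
    obtain ⟨d, hd⟩ := h.exists_right_inv
    exact hnotunit d hd
  · intro a ha
    have h1 : ψ a ∈ (𝔭 ^ (j * 4)).map ψ := Ideal.mem_map_of_mem _ ha
    rw [pow_mul, Ideal.map_pow] at h1
    have h2 := Ideal.pow_right_mono hψdiv 4 h1
    rw [Ideal.span_singleton_pow, Ideal.mem_span_singleton] at h2
    exact h2

end Pool.Agent.MP_e9abfe
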