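import Mathlib
import Pool.Agent.Lib.MP_e9abfe_ag.Strassmann
import Pool.Agent.Lib.MP_e9abfe_ag.Dyn
import Pool.Agent.Lib.MP_e9abfe_ag.RingD

set_option autoImplicit false

/-!
Orbits in a finite quotient, and the assembly of the return sets into arithmetic progressions.
-/

namespace Pool.Agent.MP_e9abfe

open MvPolynomial

/-- A set of natural numbers which meets every residue class (from some point on) in a finite set
or contains it is a finite union of arithmetic progressions. -/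
lemma progressions (Z : Set ℕ) (N L : ℕ) (hL : 0 < L)
    (h : ∀ n ≥ N, {t | n + L * t ∈ Z}.Finite ∨ ∀ t, n + L * t ∈ Z) :
    ∃ F : Finset (ℕ × ℕ), Z = {m | ∃ q ∈ F, ∃ j : ℕ, m = q.1 + q.2 * j} := by
  classical
  let W : Finset ℕ := (Finset.Ico N (N + L)).filter (fun n => ∀ t, n + L * t ∈ Z)
  let Y : Set ℕ := Z ∩ {m | ∀ n ∈ W, ∀ t, m ≠ n + L * t}
  have hY : Y.Finite := by
    have h1 : Y ⊆ Set.Iio N ∪ ⋃ n ∈ (Finset.Ico N (N + L)).filter
        (fun n => ¬ ∀ t, n + L * t ∈ Z), (fun t => n + L * t) '' {t | n + L * t ∈ Z} := by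
      rintro m ⟨hmZ, hm⟩
      by_cases hmN : m < N
      · exact Or.inl hmN
      · right
        obtain ⟨d, rfl⟩ := Nat.exists_eq_add_of_le (not_lt.1 hmN)
        have h2 : N + d = (N + d % L) + L * (d / L) := by
          have := Nat.mod_add_div d L
          omega
        have h3 : N + d % L ∈ Finset.Ico N (N + L) := by
          rw [Finset.mem_Ico]
          have := Nat.mod_lt d hL
          omega
        rw [Set.mem_iUnion₂]
        refine ⟨N + d % L, ?_, ?_⟩
        · rw [Finset.mem_filter]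
          refine ⟨h3, fun hall => ?_⟩
          exact hm (N + d % L) (by rw [Finset.mem_filter]; exact ⟨h3, hall⟩) (d / L) h2
        · refine ⟨d / L, ?_, h2.symm⟩
          rw [Set.mem_ofPred_eq, ← h2]
          exact hmZ
    refine Set.Finite.subset ?_ h1
    refine (Set.finite_Iio N).union ?_
    apply Set.Finite.biUnion (Finset.finite_toSet _)
    intro n hn
    rw [Finset.mem_coe, Finset.mem_filter, Finset.mem_Ico] at hn
    rcases h n hn.1.1 with h2 | h2
    · exact h2.image _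
    · exact absurd h2 hn.2
  refine ⟨W.image (fun n => (n, L)) ∪ hY.toFinset.image (fun n => (n, 0)), ?_⟩
  ext m
  constructor
  · intro hm
    by_cases hmW : ∀ n ∈ W, ∀ t, m ≠ n + L * t
    · refine ⟨(m, 0), ?_, 0, by simp⟩
      rw [Finset.mem_union]
      right
      rw [Finset.mem_image]
      exact ⟨m, by rw [Set.Finite.mem_toFinset]; exact ⟨hm, hmW⟩, rfl⟩
    · push Not at hmW
      obtain ⟨n, hn, t, rfl⟩ := hmW
      refine ⟨(n, L), ?_, t, rfl⟩
      rw [Finset.mem_union]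
      left
      exact Finset.mem_image_of_mem _ hn
  · rintro ⟨q, hq, j, rfl⟩
    rw [Finset.mem_union, Finset.mem_image, Finset.mem_image] at hq
    rcases hq with ⟨n, hn, rfl⟩ | ⟨n, hn, rfl⟩
    · exact (Finset.mem_filter.1 hn).2 j
    · rw [Set.Finite.mem_toFinset] at hn
      simpa using hn.1

/-- An element outside the maximal ideal `𝔭` is a unit modulo every power of `𝔭`. -/
lemma isUnit_mk {A : Type*} [CommRing A] (𝔭 : Ideal A) [𝔭.IsMaximal] (J : ℕ) (x : A)
    (hx : x ∉ 𝔭) : IsUnit (Ideal.Quotient.mk (𝔭 ^ J) x) := by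
  obtain ⟨y, i, hi, h⟩ := Ideal.IsMaximal.exists_inv_pow 𝔭 hx J
  rw [isUnit_iff_exists_inv']
  refine ⟨Ideal.Quotient.mk _ y, ?_⟩
  rw [← map_mul, ← map_one (Ideal.Quotient.mk (𝔭 ^ J)), ← h, map_add,
    Ideal.Quotient.eq_zero_iff_mem.2 hi, add_zero]

/-- Eventually, a fixed iterate of `Φ` is congruent to the identity with Jacobian congruent to
the identity matrix along the orbit, modulo a power of the maximal ideal. -/
lemma eventually_return {A : Type*} [CommRing A] [IsNoetherianRing A] (𝔭 : Ideal A)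
    [𝔭.IsMaximal] [Finite (A ⧸ 𝔭)] (J : ℕ) (a : Fin 3 → A) (N : ℕ)
    (hN : ∀ n ≥ N, 1 + 8 * (Phi^[n] a 0 * Phi^[n] a 1 * Phi^[n] a 2) ∉ 𝔭) :
    ∃ N₀ L : ℕ, 0 < L ∧ ∀ n ≥ N₀, (∀ i, Phi^[L] (Phi^[n] a) i - Phi^[n] a i ∈ 𝔭 ^ J) ∧
      (∀ i j, (JacIter L (Phi^[n] a) - 1) i j ∈ 𝔭 ^ J) := by
  have hfin : Finite (A ⧸ 𝔭 ^ J) := Ideal.finite_quotient_pow (IsNoetherian.noetherian 𝔭) J
  set mk := Ideal.Quotient.mk (𝔭 ^ J) with hmk
  let c : Fin 3 → A ⧸ 𝔭 ^ J := fun i => mk (a i)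
  have hc : ∀ n, Phi^[n] c = fun i => mk (Phi^[n] a i) := fun n => Phi_iter_map mk n a
  obtain ⟨n1, n2, hne, heq⟩ := Finite.exists_ne_map_eq_of_infinite (fun n : ℕ => Phi^[n] c)
  wlog hlt : n1 < n2 generalizing n1 n2
  · exact this n2 n1 hne.symm heq.symm (by omega)
  obtain ⟨M, hM⟩ := Nat.exists_eq_add_of_lt hlt
  set M' := M + 1 with hM'
  have hper : ∀ n ≥ n1, Phi^[M'] (Phi^[n] c) = Phi^[n] c := by
    intro n hn
    obtain ⟨d, rfl⟩ := Nat.exists_eq_add_of_le hn
    have h1 : Phi^[M'] (Phi^[n1] c) = Phi^[n1] c := by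
      rw [← Function.iterate_add_apply, show M' + n1 = n2 by omega]
      exact heq.symm
    rw [Nat.add_comm n1 d, Function.iterate_add_apply Phi d n1, ← Function.iterate_add_apply,
      Nat.add_comm M' d, Function.iterate_add_apply, h1]
  let g := Nat.card (Matrix (Fin 3) (Fin 3) (A ⧸ 𝔭 ^ J))ˣ
  have hg : 0 < g := Nat.card_pos
  refine ⟨max n1 N, M' * g, Nat.mul_pos (by omega) hg, ?_⟩
  intro n hn
  have hn1 : n1 ≤ n := le_trans (le_max_left _ _) hn
  have hnN : N ≤ n := le_trans (le_max_right _ _) hn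
  have hv := hper n hn1
  have hfix : Phi^[M' * g] (Phi^[n] c) = Phi^[n] c := by
    rw [Function.iterate_mul]
    exact Function.iterate_fixed hv g
  have hunit : IsUnit (JacIter M' (Phi^[n] c)) := by
    apply isUnit_JacIter
    intro j
    have h1 := isUnit_mk 𝔭 J _ (hN (j + n) (by omega))
    rw [← Function.iterate_add_apply, hc]
    have h8 : mk 8 = 8 := map_ofNat mk 8
    rw [← hmk, map_add, map_one, map_mul, h8, map_mul, map_mul] at h1
    exact h1
  have hone : JacIter (M' * g) (Phi^[n] c) = 1 := by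
    rw [JacIter_mul_period M' _ hv g]
    obtain ⟨w, hw⟩ := hunit
    have h1 : w ^ g = 1 := pow_card_eq_one'
    rw [← hw, ← Units.val_pow_eq_pow_val, h1, Units.val_one]
  constructor
  · intro i
    rw [← Ideal.Quotient.eq, ← hmk]
    have h1 := congrFun hfix i
    rw [hc n, Phi_iter_map mk] at h1
    exact h1
  · intro i j
    rw [hc n, JacIter_map mk] at hone
    have h1 := congrFun (congrFun hone i) j
    rw [Matrix.map_apply] at h1
    rw [Matrix.sub_apply, ← Ideal.Quotient.eq, ← hmk, h1]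
    by_cases hij : i = j
    · subst hij; simp
    · simp [hij]

/-- The theorem over a Noetherian subring `A` of `ℂ` and a maximal ideal of `A` with finite
residue field. -/
theorem main_ring {A : Type} [CommRing A] [IsNoetherianRing A] [Algebra A ℂ]
    (hinj : Function.Injective (algebraMap A ℂ)) (𝔭 : Ideal A) [h𝔭 : 𝔭.IsMaximal]
    [Finite (A ⧸ 𝔭)] (p : ℕ) (hp : p.Prime) (hp𝔭 : (p : A) ∈ 𝔭) (a : Fin 3 → A) (N : ℕ)
    (hN : ∀ n ≥ N, 1 + 8 * (Phi^[n] a 0 * Phi^[n] a 1 * Phi^[n] a 2) ∉ 𝔭)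
    (S : Set (MvPolynomial (Fin 3) ℂ)) :
    ∃ F : Finset (ℕ × ℕ),
      {n : ℕ | ∀ f ∈ S, eval (Phi^[n] (fun i => algebraMap A ℂ (a i))) f = 0}
        = {m : ℕ | ∃ q ∈ F, ∃ j : ℕ, m = q.1 + q.2 * j} := by
  obtain ⟨D, _, _, ψ, hψ, hunit, hsep, J, hJ⟩ := exists_ringD hinj 𝔭 p hp hp𝔭
  obtain ⟨N₀, L, hL, hret⟩ := eventually_return 𝔭 J a N hN
  apply progressions _ N₀ L hL
  intro n hn
  obtain ⟨h1, h2⟩ := hret n hn
  let β : Fin 3 → D := fun i => ψ (Phi^[n] a i)
  have hβL : Phi^[L] β = fun i => ψ (Phi^[L] (Phi^[n] a) i) := Phi_iter_map ψ L _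
  have h1' : ∀ i, (p : D) ^ 4 ∣ Phi^[L] β i - β i := by
    intro i
    have h3 := hJ _ (h1 i)
    rw [map_sub] at h3
    rw [hβL]
    exact h3
  have h2' : ∀ i j, (p : D) ^ 2 ∣ (JacIter L β - 1) i j := by
    intro i j
    have h3 := hJ _ (h2 i j)
    have h4 : (JacIter L β - 1) i j = ψ ((JacIter L (Phi^[n] a) - 1) i j) := by
      rw [show JacIter L β = (JacIter L (Phi^[n] a)).map ψ from JacIter_map ψ L _]
      rw [Matrix.sub_apply, Matrix.sub_apply, Matrix.map_apply, map_sub]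
      by_cases hij : i = j
      · subst hij; simp
      · simp [hij]
    rw [h4]
    exact (pow_dvd_pow (p : D) (by norm_num : 2 ≤ 4)).trans h3
  -- translate the orbit
  have horb : ∀ t, (fun i => algebraMap D ℂ (Phi^[L * t] β i))
      = Phi^[n + L * t] (fun i => algebraMap A ℂ (a i)) := by
    intro t
    have h3 : Phi^[L * t] β = fun i => ψ (Phi^[L * t] (Phi^[n] a) i) := Phi_iter_map ψ _ _
    have h4 := Phi_iter_map (algebraMap A ℂ) (n + L * t) a
    rw [h4, h3]
    funext i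
    rw [hψ, ← Function.iterate_add_apply, Nat.add_comm (L * t) n]
  by_cases hall : ∀ f ∈ S, ∀ t, eval (Phi^[n + L * t] (fun i => algebraMap A ℂ (a i))) f = 0
  · right
    intro t f hf
    exact hall f hf t
  · left
    push Not at hall
    obtain ⟨f, hf, t, ht⟩ := hall
    by_contra hinf
    have hinf' : {t : ℕ | eval (fun i => algebraMap D ℂ (Phi^[L * t] β i)) f = 0}.Infinite := by
      refine Set.Infinite.mono ?_ hinf
      intro s hs
      rw [Set.mem_ofPred_eq, horb s]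
      exact hs f hf
    have h3 := core p hp hunit hsep β L h1' h2' f hinf' t
    rw [horb t] at h3
    exact ht h3

/-- The same with a specialization of `α` to a finite field. -/
theorem main_spec (α : Fin 3 → ℂ) (K : Type) [Field K] [Finite K] (β : Fin 3 → K)
    (hspec : ∀ P : MvPolynomial (Fin 3) ℤ, aeval α P = 0 → aeval β P = 0) (N : ℕ)
    (hN : ∀ n ≥ N, 1 + 8 * (Phi^[n] β 0 * Phi^[n] β 1 * Phi^[n] β 2) ≠ 0)
    (S : Set (MvPolynomial (Fin 3) ℂ)) :
    ∃ F : Finset (ℕ × ℕ),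
      {n : ℕ | ∀ f ∈ S, eval (Phi^[n] α) f = 0}
        = {m : ℕ | ∃ q ∈ F, ∃ j : ℕ, m = q.1 + q.2 * j} := by
  let I : Ideal (MvPolynomial (Fin 3) ℤ) :=
    RingHom.ker (aeval α : MvPolynomial (Fin 3) ℤ →ₐ[ℤ] ℂ)
  let A := MvPolynomial (Fin 3) ℤ ⧸ I
  let ι : A →+* ℂ := Ideal.Quotient.lift I
    ((aeval α : MvPolynomial (Fin 3) ℤ →ₐ[ℤ] ℂ) : MvPolynomial (Fin 3) ℤ →+* ℂ)
    (fun P hP => hP)
  let φ : A →+* K := Ideal.Quotient.lift I
    ((aeval β : MvPolynomial (Fin 3) ℤ →ₐ[ℤ] K) : MvPolynomial (Fin 3) ℤ →+* K)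
    (fun P hP => hspec P hP)
  let algA : Algebra A ℂ := ι.toAlgebra
  have hinj : Function.Injective (algebraMap A ℂ) := by
    show Function.Injective ι
    rw [injective_iff_map_eq_zero]
    intro x hx
    obtain ⟨P, rfl⟩ := Ideal.Quotient.mk_surjective x
    exact Ideal.Quotient.eq_zero_iff_mem.2 hx
  let 𝔭 : Ideal A := RingHom.ker φ
  have hprime : 𝔭.IsPrime := RingHom.ker_isPrime φ
  have hfinq : Finite (A ⧸ 𝔭) :=
    Finite.of_injective (RingHom.kerLift φ) (RingHom.kerLift_injective φ)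
  have hmax : 𝔭.IsMaximal := by
    have h1 : IsDomain (A ⧸ 𝔭) := (Ideal.Quotient.isDomain_iff_prime 𝔭).2 hprime
    exact Ideal.Quotient.maximal_of_isField 𝔭 (Finite.isField_of_domain (A ⧸ 𝔭))
  have hp : (ringChar K).Prime := CharP.char_is_prime K (ringChar K)
  let a : Fin 3 → A := fun i => Ideal.Quotient.mk I (X i)
  have hφa : (fun i => φ (a i)) = β := by
    funext i
    exact (Ideal.Quotient.lift_mk I _ _).trans (aeval_X β i)
  have hιa : (fun i => algebraMap A ℂ (a i)) = α := by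
    funext i
    exact (Ideal.Quotient.lift_mk I _ _).trans (aeval_X α i)
  have h := main_ring hinj 𝔭 (ringChar K) hp (by
    show φ _ = 0
    rw [map_natCast]
    exact CharP.cast_eq_zero K (ringChar K)) a N (by
      intro n hn hmem
      apply hN n hn
      have h1 : φ (1 + 8 * (Phi^[n] a 0 * Phi^[n] a 1 * Phi^[n] a 2)) = 0 := hmem
      have h8 : φ 8 = 8 := map_ofNat φ 8
      rw [map_add, map_one, map_mul, h8, map_mul, map_mul] at h1
      have h2 := Phi_iter_map φ n a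
      rw [hφa] at h2
      rw [h2]
      exact h1) S
  rw [hιa] at h
  exact h

end Pool.Agent.MP_e9abfe
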