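import Mathlib
import Pool.Agent.Lib.MP_e9abfe_ag.Main

set_option autoImplicit false

namespace Pool.Agent.MP_e9abfe.OldTwoIntegral

open MvPolynomial

/-- Specializations given by a ring homomorphism. -/
lemma aeval_eq_zero {K : Type} [Field K] (φ : MvPolynomial (Fin 3) ℤ →+* K)
    (P : MvPolynomial (Fin 3) ℤ) (hP : φ P = 0) : aeval (fun i => φ (X i)) P = 0 := by
  have h : ((aeval (fun i => φ (X i)) : MvPolynomial (Fin 3) ℤ →ₐ[ℤ] K) :
      MvPolynomial (Fin 3) ℤ →+* K) = φ := by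
    apply MvPolynomial.ringHom_ext
    · intro r; simp
    · intro i; simp
  have h2 := congrArg (fun f : MvPolynomial (Fin 3) ℤ →+* K => f P) h
  exact h2.trans hP

/-- **Theorem.** Let `Φ(x, y, z) = (x² + y, y² + z, z² + x)` and let `α` be a point of `ℂ³` such
that `1/2` is not in the ring `ℤ[α₁, α₂, α₃]`. Then for every Zariski-closed `V` the set
`S(V, α)` is a finite union of arithmetic progressions. -/
theorem result (α : Fin 3 → ℂ) (hα : ∀ P : MvPolynomial (Fin 3) ℤ, 2 * aeval α P ≠ 1)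
    (S : Set (MvPolynomial (Fin 3) ℂ)) :
    ∃ F : Finset (ℕ × ℕ),
      {n : ℕ | ∀ f ∈ S,
          eval ((fun v : Fin 3 → ℂ => ![v 0 ^ 2 + v 1, v 1 ^ 2 + v 2, v 2 ^ 2 + v 0])^[n] α) f = 0}
        = {m : ℕ | ∃ p ∈ F, ∃ j : ℕ, m = p.1 + p.2 * j} := by
  -- a maximal ideal of `ℤ[X]` containing `2` and the relations of `α`
  let I : Ideal (MvPolynomial (Fin 3) ℤ) :=
    RingHom.ker (aeval α : MvPolynomial (Fin 3) ℤ →ₐ[ℤ] ℂ)
  have hne : Ideal.span {(2 : MvPolynomial (Fin 3) ℤ)} ⊔ I ≠ ⊤ := by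
    rw [Ne, Ideal.eq_top_iff_one, Ideal.mem_span_singleton_sup]
    rintro ⟨P, Q, hQ, hPQ⟩
    have h1 := congrArg (aeval α : MvPolynomial (Fin 3) ℤ →ₐ[ℤ] ℂ) hPQ
    have hQ' : (aeval α : MvPolynomial (Fin 3) ℤ →ₐ[ℤ] ℂ) Q = 0 := hQ
    have h2 : (aeval α : MvPolynomial (Fin 3) ℤ →ₐ[ℤ] ℂ) 2 = 2 := map_ofNat _ 2
    rw [map_add, map_mul, hQ', map_one, add_zero, h2] at h1
    exact hα P (by rw [mul_comm]; exact h1)
  obtain ⟨M, hM, hle⟩ := Ideal.exists_le_maximal _ hne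
  let K := MvPolynomial (Fin 3) ℤ ⧸ M
  let _ : Field K := Ideal.Quotient.field M
  have h2M : (2 : MvPolynomial (Fin 3) ℤ) ∈ M :=
    hle (Ideal.mem_sup_left (Ideal.mem_span_singleton_self _))
  have h2K : (2 : K) = 0 := by
    have h3 : Ideal.Quotient.mk M (2 : MvPolynomial (Fin 3) ℤ) = 0 :=
      Ideal.Quotient.eq_zero_iff_mem.2 h2M
    rwa [map_ofNat] at h3
  have hchar : CharP K 2 := by
    have h3 : ((2 : ℕ) : K) = 0 := by exact_mod_cast h2K
    exact (CharP.charP_iff_prime_eq_zero Nat.prime_two).2 h3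
  let _ : Algebra (ZMod 2) K := ZMod.algebra K 2
  have hft : Algebra.FiniteType (ZMod 2) K := by
    have h3 : Algebra.FiniteType ℤ K :=
      Algebra.FiniteType.of_surjective (Ideal.Quotient.mkₐ ℤ M) (Ideal.Quotient.mkₐ_surjective ℤ M)
    exact Algebra.FiniteType.of_restrictScalars_finiteType ℤ (ZMod 2) K
  have hmod : Module.Finite (ZMod 2) K := finite_of_finite_type_of_isJacobsonRing (ZMod 2) K
  have hfin : Finite K := Module.finite_of_finite (ZMod 2)
  refine Pool.Agent.MP_e9abfe.main_spec α K (fun i => Ideal.Quotient.mk M (X i)) ?_ 0 ?_ S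
  · intro P hP
    exact aeval_eq_zero (K := K) (Ideal.Quotient.mk M) P
      (Ideal.Quotient.eq_zero_iff_mem.2 (hle (Ideal.mem_sup_right hP)))
  · intro n _ h0
    have h8 : (8 : K) = 0 := by
      have : (8 : K) = 2 * 2 * 2 := by norm_num
      rw [this, h2K]
      ring
    rw [h8, zero_mul, add_zero] at h0
    exact one_ne_zero h0

end Pool.Agent.MP_e9abfe.OldTwoIntegral
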