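import Mathlib
import Pool.Agent.Lib.MP_e9abfe_ag.FlatIdeal

set_option autoImplicit false

/-!
Real orbits: either the starting point lies on the diagonal or all coordinates become positive.
-/

namespace Pool.Agent.MP_e9abfe

open MvPolynomial Filter Topology

lemma Phi_ge (v : Fin 3 → ℝ) (i : Fin 3) : v (i + 1) ≤ Phi v i := by
  rw [Phi_apply]
  have := sq_nonneg (v i)
  linarith

lemma Phi3_ge (v : Fin 3 → ℝ) (i : Fin 3) : v i ≤ Phi^[3] v i := by
  have h3 : i + 1 + 1 + 1 = i := by fin_cases i <;> rfl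
  have a1 := Phi_ge v (i + 1 + 1)
  have a2 := Phi_ge (Phi v) (i + 1)
  have a3 := Phi_ge (Phi (Phi v)) i
  rw [h3] at a1
  exact a1.trans (a2.trans a3)

/-- The energy of the differences of coordinates. -/
def En (v : Fin 3 → ℝ) : ℝ := (v 0 - v 1) ^ 2 + (v 1 - v 2) ^ 2 + (v 2 - v 0) ^ 2

lemma En_mono (v : Fin 3 → ℝ) (h : ∀ i, v i ≤ 0) : En v ≤ En (Phi v) := by
  have e0 : Phi v 0 = v 0 ^ 2 + v 1 := rfl
  have e1 : Phi v 1 = v 1 ^ 2 + v 2 := rfl
  have e2 : Phi v 2 = v 2 ^ 2 + v 0 := rfl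
  have key : En (Phi v) - En v
      = 2 * ((-v 0) * (v 0 - v 1) ^ 2 + (-v 1) * (v 1 - v 2) ^ 2 + (-v 2) * (v 2 - v 0) ^ 2)
        + ((v 0 - v 1) ^ 2 * (v 0 + v 1) ^ 2 + (v 1 - v 2) ^ 2 * (v 1 + v 2) ^ 2
          + (v 2 - v 0) ^ 2 * (v 2 + v 0) ^ 2) := by
    unfold En
    rw [e0, e1, e2]
    ring
  have h0 : 0 ≤ -v 0 := by have := h 0; linarith
  have h1 : 0 ≤ -v 1 := by have := h 1; linarith
  have h2 : 0 ≤ -v 2 := by have := h 2; linarith
  have : 0 ≤ En (Phi v) - En v := by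
    rw [key]
    positivity
  linarith

lemma continuous_Phi : Continuous (Phi : (Fin 3 → ℝ) → Fin 3 → ℝ) := by
  apply continuous_pi
  intro i
  have : (fun v : Fin 3 → ℝ => Phi v i) = fun v => v i ^ 2 + v (i + 1) := by
    funext v; exact Phi_apply v i
  rw [this]
  fun_prop

lemma Phi_zero : Phi (0 : Fin 3 → ℝ) = 0 := by
  funext i
  rw [Phi_apply]
  simp

lemma sum_Phi (v : Fin 3 → ℝ) :
    Phi v 0 + Phi v 1 + Phi v 2 = v 0 + v 1 + v 2 + (v 0 ^ 2 + v 1 ^ 2 + v 2 ^ 2) := by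
  have e0 : Phi v 0 = v 0 ^ 2 + v 1 := rfl
  have e1 : Phi v 1 = v 1 ^ 2 + v 2 := rfl
  have e2 : Phi v 2 = v 2 ^ 2 + v 0 := rfl
  rw [e0, e1, e2]
  ring

lemma fixed3_zero (l : Fin 3 → ℝ) (h : Phi^[3] l = l) : l = 0 := by
  have h1 : Phi (Phi (Phi l)) = l := h
  have s1 := sum_Phi l
  have s2 := sum_Phi (Phi l)
  have s3 := sum_Phi (Phi (Phi l))
  rw [h1] at s3
  have q2 : 0 ≤ Phi l 0 ^ 2 + Phi l 1 ^ 2 + Phi l 2 ^ 2 := by positivity
  have q3 : 0 ≤ Phi (Phi l) 0 ^ 2 + Phi (Phi l) 1 ^ 2 + Phi (Phi l) 2 ^ 2 := by positivity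
  have q1 : l 0 ^ 2 + l 1 ^ 2 + l 2 ^ 2 ≤ 0 := by linarith
  have b0 : l 0 = 0 := by nlinarith [sq_nonneg (l 0), sq_nonneg (l 1), sq_nonneg (l 2)]
  have b1 : l 1 = 0 := by nlinarith [sq_nonneg (l 0), sq_nonneg (l 1), sq_nonneg (l 2)]
  have b2 : l 2 = 0 := by nlinarith [sq_nonneg (l 0), sq_nonneg (l 1), sq_nonneg (l 2)]
  funext i
  fin_cases i
  · exact b0
  · exact b1
  · exact b2

lemma monotone3 (w : Fin 3 → ℝ) (i : Fin 3) : Monotone (fun k : ℕ => Phi^[3 * k] w i) := by
  apply monotone_nat_of_le_succ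
  intro k
  rw [show 3 * (k + 1) = 3 + 3 * k by ring, Function.iterate_add_apply]
  exact Phi3_ge _ i

lemma nonpos_of_tendsto (w : Fin 3 → ℝ)
    (h : Tendsto (fun k : ℕ => Phi^[3 * k] w) atTop (𝓝 0)) (k : ℕ) (i : Fin 3) :
    Phi^[3 * k] w i ≤ 0 := by
  have h1 := (tendsto_pi_nhds.1 h) i
  exact (monotone3 w i).ge_of_tendsto h1 k

lemma tendsto_Phi (w : Fin 3 → ℝ)
    (h : Tendsto (fun k : ℕ => Phi^[3 * k] w) atTop (𝓝 0)) :
    Tendsto (fun k : ℕ => Phi^[3 * k] (Phi w)) atTop (𝓝 0) := by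
  have h1 := (continuous_Phi.tendsto 0).comp h
  rw [Phi_zero] at h1
  refine h1.congr (fun k => ?_)
  exact (Function.Commute.self_iterate Phi (3 * k)) w

lemma diag_of_tendsto (w : Fin 3 → ℝ)
    (h : Tendsto (fun k : ℕ => Phi^[3 * k] w) atTop (𝓝 0)) : w 0 = w 1 ∧ w 1 = w 2 := by
  have h1 := tendsto_Phi w h
  have h2 := tendsto_Phi _ h1
  have hstep : ∀ k, En (Phi^[3 * k] w) ≤ En (Phi^[3 * (k + 1)] w) := by
    intro k
    have e1 : Phi^[3 * k] (Phi w) = Phi (Phi^[3 * k] w) :=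
      ((Function.Commute.self_iterate Phi (3 * k)) w).symm
    have e2 : Phi^[3 * k] (Phi (Phi w)) = Phi (Phi (Phi^[3 * k] w)) := by
      rw [← e1]
      exact ((Function.Commute.self_iterate Phi (3 * k)) (Phi w)).symm
    have e3 : Phi^[3 * (k + 1)] w = Phi (Phi (Phi (Phi^[3 * k] w))) := by
      rw [show 3 * (k + 1) = 3 + 3 * k by ring, Function.iterate_add_apply]
      rfl
    have a1 := En_mono _ (nonpos_of_tendsto w h k)
    have a2 := En_mono _ (nonpos_of_tendsto _ h1 k)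
    have a3 := En_mono _ (nonpos_of_tendsto _ h2 k)
    rw [e1] at a2
    rw [e2] at a3
    rw [e3]
    exact a1.trans (a2.trans a3)
  have hmono : Monotone (fun k : ℕ => En (Phi^[3 * k] w)) := monotone_nat_of_le_succ hstep
  have hcont : Continuous En := by
    unfold En
    fun_prop
  have hlim : Tendsto (fun k : ℕ => En (Phi^[3 * k] w)) atTop (𝓝 (En 0)) :=
    (hcont.tendsto 0).comp h
  have hle := hmono.ge_of_tendsto hlim 0
  have h0 : En 0 = 0 := by simp [En]
  rw [h0] at hle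
  have hle' : En w ≤ 0 := hle
  unfold En at hle'
  constructor
  · nlinarith [sq_nonneg (w 0 - w 1), sq_nonneg (w 1 - w 2), sq_nonneg (w 2 - w 0)]
  · nlinarith [sq_nonneg (w 0 - w 1), sq_nonneg (w 1 - w 2), sq_nonneg (w 2 - w 0)]

/-- **Dichotomy for real orbits.** -/
theorem pos_or_diag (v0 : Fin 3 → ℝ) :
    (∃ N, ∀ i, 0 < Phi^[N] v0 i) ∨ (v0 0 = v0 1 ∧ v0 1 = v0 2) := by
  by_cases hbdd : ∀ i, BddAbove (Set.range fun k : ℕ => Phi^[3 * k] v0 i)
  · right
    let l : Fin 3 → ℝ := fun i => ⨆ k : ℕ, Phi^[3 * k] v0 i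
    have hlim : Tendsto (fun k : ℕ => Phi^[3 * k] v0) atTop (𝓝 l) := by
      rw [tendsto_pi_nhds]
      intro i
      exact tendsto_atTop_ciSup (monotone3 v0 i) (hbdd i)
    have hlim' : Tendsto (fun k : ℕ => Phi^[3 * (k + 1)] v0) atTop (𝓝 l) :=
      hlim.comp (tendsto_add_atTop_nat 1)
    have hc3 : Continuous (Phi^[3] : (Fin 3 → ℝ) → Fin 3 → ℝ) := continuous_Phi.iterate 3
    have hlim2 : Tendsto (fun k : ℕ => Phi^[3 * (k + 1)] v0) atTop (𝓝 (Phi^[3] l)) := by
      refine ((hc3.tendsto l).comp hlim).congr (fun k => ?_)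
      simp only [Function.comp_apply]
      rw [← Function.iterate_add_apply]
      congr 1
      ring_nf
    have hfix : Phi^[3] l = l := tendsto_nhds_unique hlim2 hlim'
    have hl0 := fixed3_zero l hfix
    rw [hl0] at hlim
    exact diag_of_tendsto v0 hlim
  · left
    push Not at hbdd
    obtain ⟨i, hi⟩ := hbdd
    obtain ⟨B, hB0, hB⟩ : ∃ B : ℝ, 0 ≤ B ∧ ∀ j, -B ≤ v0 j := by
      refine ⟨|v0 0| + |v0 1| + |v0 2|, by positivity, ?_⟩
      intro j
      have a0 := neg_abs_le (v0 0)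
      have a1 := neg_abs_le (v0 1)
      have a2 := neg_abs_le (v0 2)
      have b0 := abs_nonneg (v0 0)
      have b1 := abs_nonneg (v0 1)
      have b2 := abs_nonneg (v0 2)
      fin_cases j <;> simp <;> linarith
    have hub : ∃ k : ℕ, B + 2 < Phi^[3 * k] v0 i := by
      by_contra hcon
      push Not at hcon
      apply hi
      refine ⟨B + 2, ?_⟩
      rintro _ ⟨k, rfl⟩
      exact hcon k
    obtain ⟨k, hk⟩ := hub
    set w := Phi^[3 * k] v0 with hw
    have hlow : ∀ j, -B ≤ w j := fun j => (hB j).trans (monotone3 v0 j (Nat.zero_le k))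
    refine ⟨2 + 3 * k, fun j => ?_⟩
    rw [Function.iterate_add_apply, ← hw]
    show 0 < Phi (Phi w) j
    have h3 : i + 1 + 1 + 1 = i := by fin_cases i <;> rfl
    have hi0 : B + 2 ≤ Phi w i := by
      rw [Phi_apply]
      have := hlow (i + 1)
      nlinarith
    have hi2 : B + 2 < Phi w (i + 1 + 1) := by
      have := Phi_ge w (i + 1 + 1)
      rw [h3] at this
      linarith
    have hi1 : -B ≤ Phi w (i + 1) := (hlow (i + 1 + 1)).trans (Phi_ge w (i + 1))
    have c0 : 0 < Phi (Phi w) i := by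
      rw [Phi_apply]
      nlinarith
    have c1 : 0 < Phi (Phi w) (i + 1) := by
      have := Phi_ge (Phi w) (i + 1)
      linarith
    have c2 : 0 < Phi (Phi w) (i + 1 + 1) := by
      have := Phi_ge (Phi w) (i + 1 + 1)
      rw [h3] at this
      linarith
    have hj : j = i ∨ j = i + 1 ∨ j = i + 1 + 1 := by
      fin_cases i <;> fin_cases j <;> simp
    rcases hj with rfl | rfl | rfl
    · exact c0
    · exact c1
    · exact c2

/-- Orbits on the diagonal. -/
theorem diag_case (v0 : Fin 3 → ℝ) (h : v0 0 = v0 1 ∧ v0 1 = v0 2) :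
    ∃ n0, ∀ g : MvPolynomial (Fin 3) ℝ, {n | eval (Phi^[n] v0) g = 0}.Infinite →
      ∀ n ≥ n0, eval (Phi^[n] v0) g = 0 := by
  let c : ℕ → ℝ := fun n => Phi^[n] v0 0
  have hc : ∀ n, Phi^[n] v0 = fun _ => c n := by
    intro n
    induction n with
    | zero =>
      funext i
      show v0 i = v0 0
      fin_cases i
      · rfl
      · exact h.1.symm
      · exact (h.1.trans h.2).symm
    | succ n ih =>
      funext i
      show Phi^[n + 1] v0 i = Phi^[n + 1] v0 0
      rw [Function.iterate_succ_apply', ih, Phi_apply, Phi_apply]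
  have hcs : ∀ n, c (n + 1) = c n ^ 2 + c n := by
    intro n
    show Phi^[n + 1] v0 0 = _
    rw [Function.iterate_succ_apply', hc n, Phi_apply]
  by_cases hz : ∃ m, c m = 0
  · obtain ⟨m, hm⟩ := hz
    have hzero : ∀ n ≥ m, c n = 0 := by
      intro n hn
      induction n, hn using Nat.le_induction with
      | base => exact hm
      | succ n _ ih => rw [hcs, ih]; ring
    refine ⟨m, fun g hinf n hn => ?_⟩
    obtain ⟨k, hk, hkm⟩ := hinf.exists_gt m
    have hk' : eval (Phi^[k] v0) g = 0 := hk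
    rw [hc k, hzero k hkm.le] at hk'
    rw [hc n, hzero n hn]
    exact hk'
  · push Not at hz
    have hmono : StrictMono c := by
      apply strictMono_nat_of_lt_succ
      intro n
      rw [hcs]
      have := hz n
      have : 0 < c n ^ 2 := by positivity
      linarith
    refine ⟨0, fun g hinf n _ => ?_⟩
    let G : Polynomial ℝ := aeval (fun _ => (Polynomial.X : Polynomial ℝ)) g
    have hG : ∀ t, G.eval t = eval (fun _ => t) g := by
      intro t
      have h1 : (Polynomial.evalRingHom t).comp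
          ((aeval (fun _ => (Polynomial.X : Polynomial ℝ)) :
            MvPolynomial (Fin 3) ℝ →ₐ[ℝ] Polynomial ℝ) :
            MvPolynomial (Fin 3) ℝ →+* Polynomial ℝ) = eval (fun _ => t) := by
        apply MvPolynomial.ringHom_ext
        · intro r; simp
        · intro i; simp
      exact congrArg (fun f : MvPolynomial (Fin 3) ℝ →+* ℝ => f g) h1
    have hG0 : G = 0 := by
      apply Polynomial.eq_zero_of_infinite_isRoot
      apply (hinf.image (hmono.injective.injOn)).mono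
      rintro _ ⟨k, hk, rfl⟩
      show Polynomial.IsRoot G (c k)
      rw [Polynomial.IsRoot, hG]
      have hk' : eval (Phi^[k] v0) g = 0 := hk
      rwa [hc k] at hk'
    rw [hc n, ← hG, hG0, Polynomial.eval_zero]

/-- **Real orbits.** -/
theorem real_core (v0 : Fin 3 → ℝ) :
    ∃ n0, ∀ g : MvPolynomial (Fin 3) ℝ, {n | eval (Phi^[n] v0) g = 0}.Infinite →
      ∀ n ≥ n0, eval (Phi^[n] v0) g = 0 := by
  rcases pos_or_diag v0 with ⟨N, hN⟩ | h
  · obtain ⟨n0, hn0⟩ := escaping _ hN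
    refine ⟨n0 + N, fun g hinf n hn => ?_⟩
    have hinf' : {n | eval (Phi^[n] (Phi^[N] v0)) g = 0}.Infinite := by
      intro hfin
      apply hinf
      apply ((Set.finite_Iio N).union (hfin.image (fun k => k + N))).subset
      intro k hk
      by_cases hkN : k < N
      · exact Or.inl hkN
      · right
        obtain ⟨d, rfl⟩ := Nat.exists_eq_add_of_le (not_lt.1 hkN)
        refine ⟨d, ?_, by simp [add_comm]⟩
        show eval (Phi^[d] (Phi^[N] v0)) g = 0
        rw [← Function.iterate_add_apply, add_comm d N]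
        exact hk
    obtain ⟨d, rfl⟩ := Nat.exists_eq_add_of_le hn
    have h1 := hn0 g hinf' (n0 + d) (by omega)
    rw [← Function.iterate_add_apply] at h1
    rw [show n0 + N + d = n0 + d + N by ring]
    exact h1
  · exact diag_case v0 h

/-- The theorem for points `α` with coordinates in a field with a real embedding. -/
theorem real_embedding {k0 : Type} [Field k0] [Algebra k0 ℂ] (a : Fin 3 → k0) (σ : k0 →+* ℝ)
    (S : Set (MvPolynomial (Fin 3) ℂ)) :
    {n : ℕ | ∀ f ∈ S, eval (Phi^[n] (fun i => algebraMap k0 ℂ (a i))) f = 0}.Finite ∨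
      ∃ n0, ∀ n ≥ n0, ∀ f ∈ S, eval (Phi^[n] (fun i => algebraMap k0 ℂ (a i))) f = 0 := by
  classical
  have hα : ∀ n, Phi^[n] (fun i => algebraMap k0 ℂ (a i))
      = fun i => algebraMap k0 ℂ (Phi^[n] a i) := fun n => Phi_iter_map (algebraMap k0 ℂ) n a
  let β : Fin 3 → ℝ := fun i => σ (a i)
  have hβ : ∀ n, Phi^[n] β = fun i => σ (Phi^[n] a i) := fun n => Phi_iter_map σ n a
  obtain ⟨n0, hn0⟩ := real_core β
  let b := Module.Basis.ofVectorSpace k0 ℂ
  let comp : (Module.Basis.ofVectorSpaceIndex k0 ℂ) → MvPolynomial (Fin 3) ℂ →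
      MvPolynomial (Fin 3) k0 :=
    fun j f => ∑ m ∈ f.support, monomial m (b.coord j (coeff m f))
  have hcomp : ∀ (f : MvPolynomial (Fin 3) ℂ) (x : Fin 3 → k0),
      eval (fun i => algebraMap k0 ℂ (x i)) f = 0 ↔ ∀ j, eval x (comp j f) = 0 := by
    intro f x
    have h1 : eval (fun i => algebraMap k0 ℂ (x i)) f
        = ∑ m ∈ f.support, (∏ i, x i ^ m i) • coeff m f := by
      rw [eval_eq']
      apply Finset.sum_congr rfl
      intro m _
      rw [Algebra.smul_def, map_prod, mul_comm]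
      congr 1
      apply Finset.prod_congr rfl
      intro i _
      rw [map_pow]
    have h2 : ∀ j, eval x (comp j f) = b.coord j (eval (fun i => algebraMap k0 ℂ (x i)) f) := by
      intro j
      rw [h1, map_sum]
      simp only [map_sum]
      apply Finset.sum_congr rfl
      intro m _
      rw [map_smul, smul_eq_mul, eval_monomial, mul_comm]
      congr 1
      rw [Finsupp.prod_fintype]
      intro i
      exact pow_zero _
    simp only [h2]
    exact (b.forall_coord_eq_zero_iff).symm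
  have hσ : ∀ (g : MvPolynomial (Fin 3) k0) (x : Fin 3 → k0),
      eval (fun i => σ (x i)) (map σ g) = 0 ↔ eval x g = 0 := by
    intro g x
    have h1 : eval (fun i => σ (x i)) (map σ g) = σ (eval x g) := by
      rw [eval_map]
      exact (eval₂_comp_left σ (RingHom.id _) x g).symm
    rw [h1]
    exact map_eq_zero_iff σ σ.injective
  have hiff : ∀ n, (∀ f ∈ S, eval (Phi^[n] (fun i => algebraMap k0 ℂ (a i))) f = 0) ↔
      ∀ f ∈ S, ∀ j, eval (Phi^[n] β) (map σ (comp j f)) = 0 := by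
    intro n
    rw [hα n, hβ n]
    refine forall₂_congr (fun f _ => ?_)
    rw [hcomp]
    exact forall_congr' (fun j => (hσ _ _).symm)
  by_cases hall : ∀ f ∈ S, ∀ j, {n | eval (Phi^[n] β) (map σ (comp j f)) = 0}.Infinite
  · right
    refine ⟨n0, fun n hn => ?_⟩
    rw [hiff]
    intro f hf j
    exact hn0 _ (hall f hf j) n hn
  · left
    push Not at hall
    obtain ⟨f, hf, j, hfin⟩ := hall
    apply hfin.subset
    intro n hn
    exact (hiff n).1 hn f hf j

end Pool.Agent.MP_e9abfe
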